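import Pool.Agent.Lib.MP_d28408_gt.Defs

/-!
# MP_d28408_gt : the Artin action
-/

namespace MPd28408

/-- The product of the first `n` generators. -/
def pre (d n : ℕ) : FreeGroup (Fin d) := ((List.ofFn (gen (d := d))).take n).prod

theorem pre_zero (d : ℕ) : pre d 0 = 1 := rfl

theorem pre_total (d : ℕ) : pre d d = total d := by
  unfold pre total
  rw [List.take_of_length_le]
  rw [List.length_ofFn]

theorem pre_succ {d n : ℕ} (h : n < d) : pre d (n + 1) = pre d n * gen ⟨n, h⟩ := by
  unfold pre
  rw [List.prod_take_succ _ _ (by rw [List.length_ofFn]; exact h), List.getElem_ofFn]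

theorem artinAut_pre_le {d : ℕ} (i : Fin (d - 1)) {n : ℕ} (hn : n ≤ i) :
    artinAut i (pre d n) = pre d n := by
  induction n with
  | zero => rw [pre_zero, map_one]
  | succ n ih =>
    have hnd : n < d := by omega
    rw [pre_succ hnd, map_mul, ih (by omega), artinAut_of_ne]
    · intro h
      have := congrArg Fin.val h
      simp only [lo] at this
      omega
    · intro h
      have := congrArg Fin.val h
      simp only [hi] at this
      omega

theorem artinAut_pre_ge {d : ℕ} (i : Fin (d - 1)) {n : ℕ} (hn : (i : ℕ) + 2 ≤ n) (hnd : n ≤ d) :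
    artinAut i (pre d n) = pre d n := by
  induction n, hn using Nat.le_induction with
  | base =>
    have h1 : (i : ℕ) + 1 < d := by omega
    have h0 : (i : ℕ) < d := by omega
    rw [pre_succ h1, pre_succ h0, map_mul, map_mul, artinAut_pre_le i le_rfl]
    change pre d i * artinAut i (gen (lo i)) * artinAut i (gen (hi i)) =
      pre d i * gen (lo i) * gen (hi i)
    rw [artinAut_lo, artinAut_hi]
    group
  | succ n hn ih =>
    have h1 : n < d := by omega
    rw [pre_succ h1, map_mul, ih (by omega), artinAut_of_ne]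
    · intro h
      have := congrArg Fin.val h
      simp only [lo] at this
      omega
    · intro h
      have := congrArg Fin.val h
      simp only [hi] at this
      omega

theorem artinAut_total {d : ℕ} (i : Fin (d - 1)) : artinAut i (total d) = total d := by
  rw [← pre_total]
  exact artinAut_pre_ge i (by omega) le_rfl

/-- Induction for braids. -/
theorem braid_induction {d : ℕ} {p : Braid d → Prop} (h1 : p 1) (hs : ∀ i, p (sigma i))
    (hm : ∀ a b, p a → p b → p (a * b)) (hi : ∀ a, p a → p a⁻¹) (b : Braid d) : p b := by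
  have hb : b ∈ Subgroup.closure (Set.range (PresentedGroup.of (rels := braidRels d))) := by
    rw [PresentedGroup.closure_range_of]
    exact Subgroup.mem_top b
  induction hb using Subgroup.closure_induction with
  | mem x hx =>
    obtain ⟨i, rfl⟩ := hx
    exact hs i
  | one => exact h1
  | mul x y _ _ hx hy => exact hm x y hx hy
  | inv x _ hx => exact hi x hx

/-- The Artin action fixes the product of the generators. -/
theorem artin_total {d : ℕ} (b : Braid d) : artin d b (total d) = total d := by
  induction b using braid_induction with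
  | h1 => rw [map_one, MulAut.one_apply]
  | hs i => rw [artin_sigma, artinAut_total]
  | hm a b ha hb => rw [map_mul, MulAut.mul_apply, hb, ha]
  | hi a ha =>
    conv_lhs => rw [← ha]
    rw [← MulAut.mul_apply, ← map_mul, inv_mul_cancel, map_one, MulAut.one_apply]

theorem artin_inv_sigma {d : ℕ} (i : Fin (d - 1)) (w : FreeGroup (Fin d)) :
    artin d (sigma i)⁻¹ w = (artinAut i).symm w := by
  rw [map_inv, artin_sigma]
  rfl

theorem artinAut_symm_lo {d : ℕ} (i : Fin (d - 1)) :
    (artinAut i).symm (gen (lo i)) = gen (hi i) := by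
  rw [MulEquiv.symm_apply_eq, artinAut_hi]

theorem artinAut_symm_hi {d : ℕ} (i : Fin (d - 1)) :
    (artinAut i).symm (gen (hi i)) = (gen (hi i))⁻¹ * gen (lo i) * gen (hi i) := by
  rw [MulEquiv.symm_apply_eq, map_mul, map_mul, map_inv, artinAut_hi, artinAut_lo]
  group

theorem artinAut_symm_of_ne {d : ℕ} {i : Fin (d - 1)} {j : Fin d} (h1 : j ≠ lo i) (h2 : j ≠ hi i) :
    (artinAut i).symm (gen j) = gen j := by
  rw [MulEquiv.symm_apply_eq, artinAut_of_ne h1 h2]

/-- Generators are sent to conjugates of generators. -/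
theorem artin_conj {d : ℕ} (b : Braid d) :
    (∀ k, ∃ w j, artin d b (gen k) = w * gen j * w⁻¹) ∧
      (∀ k, ∃ w j, artin d b⁻¹ (gen k) = w * gen j * w⁻¹) := by
  have key : ∀ a b : Braid d, (∀ k, ∃ w j, artin d a (gen k) = w * gen j * w⁻¹) →
      (∀ k, ∃ w j, artin d b (gen k) = w * gen j * w⁻¹) →
      (∀ k, ∃ w j, artin d (a * b) (gen k) = w * gen j * w⁻¹) := by
    intro a b ha hb k
    obtain ⟨w, j, hj⟩ := hb k
    obtain ⟨w', j', hj'⟩ := ha j
    refine ⟨artin d a w * w', j', ?_⟩
    rw [map_mul, MulAut.mul_apply, hj, map_mul, map_mul, map_inv, hj']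
    group
  induction b using braid_induction with
  | h1 =>
    rw [inv_one]
    refine ⟨fun k => ⟨1, k, ?_⟩, fun k => ⟨1, k, ?_⟩⟩ <;>
    · rw [map_one, MulAut.one_apply]
      group
  | hs i =>
    refine ⟨fun k => ?_, fun k => ?_⟩
    · rw [artin_sigma]
      by_cases h1 : k = lo i
      · subst h1
        exact ⟨_, _, artinAut_lo i⟩
      · by_cases h2 : k = hi i
        · subst h2
          refine ⟨1, lo i, ?_⟩
          rw [artinAut_hi]
          group
        · refine ⟨1, k, ?_⟩
          rw [artinAut_of_ne h1 h2]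
          group
    · rw [artin_inv_sigma]
      by_cases h1 : k = lo i
      · subst h1
        refine ⟨1, hi i, ?_⟩
        rw [artinAut_symm_lo]
        group
      · by_cases h2 : k = hi i
        · subst h2
          refine ⟨(gen (hi i))⁻¹, lo i, ?_⟩
          rw [artinAut_symm_hi]
          group
        · refine ⟨1, k, ?_⟩
          rw [artinAut_symm_of_ne h1 h2]
          group
  | hm a b ha hb =>
    refine ⟨key a b ha.1 hb.1, ?_⟩
    rw [mul_inv_rev]
    exact key _ _ hb.2 ha.2
  | hi a ha =>
    refine ⟨ha.2, ?_⟩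
    rw [inv_inv]
    exact ha.1

/-! ### The full twist -/

/-- The product of the first `n` generators of the braid group. -/
def spre (d n : ℕ) : Braid d := ((List.ofFn (sigma (d := d))).take n).prod

theorem spre_succ {d n : ℕ} (h : n < d - 1) : spre d (n + 1) = spre d n * sigma ⟨n, h⟩ := by
  unfold spre
  rw [List.prod_take_succ _ _ (by rw [List.length_ofFn]; exact h), List.getElem_ofFn]

theorem spre_total (d : ℕ) : spre d (d - 1) = (List.ofFn (sigma (d := d))).prod := by
  unfold spre
  rw [List.take_of_length_le]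
  rw [List.length_ofFn]

/-- The action of `sigma_0 ... sigma_(n-1)`. -/
theorem artin_spre {d : ℕ} (hd : 0 < d) {n : ℕ} (hn : n ≤ d - 1) :
    (∀ j (hj : j < n), artin d (spre d n) (gen ⟨j, by omega⟩) =
      gen ⟨0, hd⟩ * gen ⟨j + 1, by omega⟩ * (gen ⟨0, hd⟩)⁻¹) ∧
    artin d (spre d n) (gen ⟨n, by omega⟩) = gen ⟨0, hd⟩ ∧
    (∀ j (hj : j < d), n < j → artin d (spre d n) (gen ⟨j, hj⟩) = gen ⟨j, hj⟩) := by
  induction n with
  | zero =>
    refine ⟨fun j hj => absurd hj (by omega), ?_, fun j hj _ => ?_⟩
    · change artin d 1 _ = _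
      rw [map_one, MulAut.one_apply]
    · change artin d 1 _ = _
      rw [map_one, MulAut.one_apply]
  | succ n ih =>
    obtain ⟨ih1, ih2, ih3⟩ := ih (by omega)
    have hlo : (gen ⟨n, by omega⟩ : FreeGroup (Fin d)) = gen (lo (⟨n, by omega⟩ : Fin (d - 1))) := rfl
    have hhi : (gen ⟨n + 1, by omega⟩ : FreeGroup (Fin d)) =
      gen (hi (⟨n, by omega⟩ : Fin (d - 1))) := rfl
    refine ⟨fun j hj => ?_, ?_, fun j hj hj' => ?_⟩
    · rw [spre_succ (by omega), map_mul, MulAut.mul_apply, artin_sigma]
      rcases Nat.lt_succ_iff_lt_or_eq.1 hj with hj | rfl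
      · rw [artinAut_of_ne, ih1 j hj]
        · intro h
          have := congrArg Fin.val h
          simp only [lo] at this
          omega
        · intro h
          have := congrArg Fin.val h
          simp only [hi] at this
          omega
      · rw [hlo, artinAut_lo, map_mul, map_mul, map_inv, ← hlo, ← hhi, ih2, ih3 _ _ (by omega)]
    · rw [spre_succ (by omega), map_mul, MulAut.mul_apply, artin_sigma, hhi, artinAut_hi, ← hlo, ih2]
    · rw [spre_succ (by omega), map_mul, MulAut.mul_apply, artin_sigma, artinAut_of_ne, ih3 _ _ (by omega)]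
      · intro h
        have := congrArg Fin.val h
        simp only [lo] at this
        omega
      · intro h
        have := congrArg Fin.val h
        simp only [hi] at this
        omega

theorem artin_rot {d : ℕ} (hd : 0 < d) (j : ℕ) :
    artin d ((List.ofFn (sigma (d := d))).prod) (gen ⟨j % d, Nat.mod_lt _ hd⟩) =
      gen ⟨0, hd⟩ * gen ⟨(j + 1) % d, Nat.mod_lt _ hd⟩ * (gen ⟨0, hd⟩)⁻¹ := by
  rw [← spre_total]
  obtain ⟨h1, h2, -⟩ := artin_spre hd (n := d - 1) le_rfl
  by_cases hj : j % d < d - 1
  · rw [h1 _ hj]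
    have : (⟨j % d + 1, by omega⟩ : Fin d) = ⟨(j + 1) % d, Nat.mod_lt _ hd⟩ := by
      apply Fin.ext
      change j % d + 1 = (j + 1) % d
      rw [Nat.add_mod]
      by_cases hd1 : d = 1
      · subst hd1; omega
      · rw [Nat.mod_eq_of_lt (a := 1) (by omega), Nat.mod_eq_of_lt (a := j % d + 1) (by omega)]
    rw [this]
  · have hlt := Nat.mod_lt j hd
    have e1 : (⟨j % d, Nat.mod_lt _ hd⟩ : Fin d) = ⟨d - 1, by omega⟩ := by
      apply Fin.ext
      change j % d = d - 1
      omega
    have e2 : (⟨(j + 1) % d, Nat.mod_lt _ hd⟩ : Fin d) = ⟨0, hd⟩ := by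
      apply Fin.ext
      change (j + 1) % d = 0
      rw [Nat.add_mod]
      have : j % d = d - 1 := by omega
      rw [this]
      by_cases hd1 : d = 1
      · subst hd1; omega
      · rw [Nat.mod_eq_of_lt (a := 1) (by omega), Nat.sub_add_cancel hd, Nat.mod_self]
    rw [e1, e2, h2]
    group

theorem artin_rot_pow {d : ℕ} (hd : 0 < d) {n : ℕ} (hn : n ≤ d) (j : ℕ) :
    artin d ((List.ofFn (sigma (d := d))).prod ^ n) (gen ⟨j % d, Nat.mod_lt _ hd⟩) =
      pre d n * gen ⟨(j + n) % d, Nat.mod_lt _ hd⟩ * (pre d n)⁻¹ := by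
  induction n generalizing j with
  | zero =>
    rw [pow_zero, map_one, MulAut.one_apply, pre_zero]
    simp
  | succ n ih =>
    rw [pow_succ, map_mul, MulAut.mul_apply, artin_rot hd, map_mul, map_mul, map_inv,
      ih (by omega) (j + 1)]
    have h0 := ih (by omega) 0
    have e1 : (⟨0 % d, Nat.mod_lt _ hd⟩ : Fin d) = ⟨0, hd⟩ := Fin.ext (Nat.zero_mod d)
    have e2 : (⟨(0 + n) % d, Nat.mod_lt _ hd⟩ : Fin d) = ⟨n, by omega⟩ := by
      apply Fin.ext
      change (0 + n) % d = n
      rw [zero_add, Nat.mod_eq_of_lt (by omega)]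
    rw [e1, e2] at h0
    rw [h0, pre_succ (by omega : n < d)]
    have e3 : (⟨(j + 1 + n) % d, Nat.mod_lt _ hd⟩ : Fin d) = ⟨(j + (n + 1)) % d, Nat.mod_lt _ hd⟩ := by
      apply Fin.ext
      change (j + 1 + n) % d = (j + (n + 1)) % d
      rw [show j + 1 + n = j + (n + 1) by ring]
    rw [e3]
    group

/-- The full twist acts as the conjugation by the product of all generators. -/
theorem artin_fullTwist {d : ℕ} (hd : 0 < d) (w : FreeGroup (Fin d)) :
    artin d (fullTwist d) w = total d * w * (total d)⁻¹ := by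
  have h : artin d (fullTwist d) = MulAut.conj (total d) := by
    apply artinAut_ext
    intro j
    have h1 := artin_rot_pow hd (n := d) le_rfl j
    have e1 : (⟨(j : ℕ) % d, Nat.mod_lt _ hd⟩ : Fin d) = j := by
      apply Fin.ext
      change (j : ℕ) % d = j
      rw [Nat.mod_eq_of_lt j.2]
    have e2 : (⟨((j : ℕ) + d) % d, Nat.mod_lt _ hd⟩ : Fin d) = j := by
      apply Fin.ext
      change ((j : ℕ) + d) % d = j
      rw [Nat.add_mod_right, Nat.mod_eq_of_lt j.2]
    rw [e1, e2, pre_total] at h1
    rw [MulAut.conj_apply]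
    exact h1
  rw [h, MulAut.conj_apply]

end MPd28408
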