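import Pool.Agent.Lib.MP_d28408_gt.Cut

/-!
# MP_d28408_gt : Hurwitz moves on lists of transpositions, planar normal form
-/

open Equiv

namespace MPd28408

/-- An elementary Hurwitz move. -/
inductive HStep {G : Type*} [Group G] : List G → List G → Prop
  | mk (l₁ : List G) (a b : G) (l₂ : List G) :
      HStep (l₁ ++ a :: b :: l₂) (l₁ ++ (a * b * a⁻¹) :: a :: l₂)

/-- Hurwitz moves. -/
abbrev Hz {G : Type*} [Group G] : List G → List G → Prop := Relation.ReflTransGen HStep

section general

variable {G : Type*} [Group G]

theorem Hz.append {l l' : List G} (h : Hz l l') (p s : List G) : Hz (p ++ l ++ s) (p ++ l' ++ s) := by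
  induction h with
  | refl => exact Relation.ReflTransGen.refl
  | tail _ hst ih =>
    refine ih.tail ?_
    cases hst with
    | mk l₁ a b l₂ =>
      have := HStep.mk (p ++ l₁) a b (l₂ ++ s)
      simpa [List.append_assoc] using this

theorem Hz.cons {l l' : List G} (h : Hz l l') (x : G) : Hz (x :: l) (x :: l') := by
  have := h.append [x] []
  simpa using this

theorem Hz.append_left {l l' : List G} (h : Hz l l') (p : List G) : Hz (p ++ l) (p ++ l') := by
  have := h.append p []
  simpa using this

theorem Hz.append_right {l l' : List G} (h : Hz l l') (s : List G) : Hz (l ++ s) (l' ++ s) := by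
  have := h.append [] s
  simpa using this

theorem Hz.length {l l' : List G} (h : Hz l l') : l'.length = l.length := by
  induction h with
  | refl => rfl
  | tail _ hst ih =>
    rw [← ih]
    cases hst with
    | mk l₁ a b l₂ => simp

theorem Hz.prod {l l' : List G} (h : Hz l l') : l'.prod = l.prod := by
  induction h with
  | refl => rfl
  | tail _ hst ih =>
    rw [← ih]
    cases hst with
    | mk l₁ a b l₂ =>
      simp only [List.prod_append, List.prod_cons]
      group

/-- Moving an element to the right end. -/
theorem Hz.move (x : G) (l : List G) : Hz (x :: l) (l.map (fun y => x * y * x⁻¹) ++ [x]) := by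
  induction l with
  | nil => exact Relation.ReflTransGen.refl
  | cons y l ih =>
    have h1 : HStep ([] ++ x :: y :: l) ([] ++ (x * y * x⁻¹) :: x :: l) := HStep.mk [] x y l
    refine Relation.ReflTransGen.head h1 ?_
    exact ih.cons _

end general

variable {N d : ℕ}

/-! ### Realization by braids -/

theorem act_mul {G : Type*} [Group G] (θ : FreeGroup (Fin d) →* G) (a b : Braid d) :
    act θ (a * b) = act (act θ a) b := by
  apply MonoidHom.ext
  intro w
  rw [act_apply, act_apply, act_apply, artin_mul_apply]

theorem act_one {G : Type*} [Group G] (θ : FreeGroup (Fin d) →* G) : act θ 1 = θ := by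
  apply MonoidHom.ext
  intro w
  rw [act_apply, map_one, MulAut.one_apply]

/-- The list of the values on the generators. -/
def vals {G : Type*} [Group G] (θ : FreeGroup (Fin d) →* G) : List G :=
  List.ofFn fun k => θ (gen k)

theorem realize_step {G : Type*} [Group G] {θ : FreeGroup (Fin d) →* G} {t : List G}
    (h : HStep (vals θ) t) : ∃ g, vals (act θ g) = t := by
  generalize hv : vals θ = v at h
  cases h with
  | mk l₁ a b l₂ =>
    have hlen : d = l₁.length + (l₂.length + 2) := by
      have := congrArg List.length hv
      rw [vals, List.length_ofFn] at this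
      simpa using this
    have hk : l₁.length < d - 1 := by omega
    have hget : ∀ (i : ℕ) (hi : i < d) (hi' : i < (l₁ ++ a :: b :: l₂).length),
        θ (gen ⟨i, hi⟩) = (l₁ ++ a :: b :: l₂)[i] := by
      intro i hi hi'
      have h1 : (vals θ)[i]'(by rw [hv]; exact hi') = (l₁ ++ a :: b :: l₂)[i] := by
        simp only [hv]
      rw [← h1]
      simp only [vals, List.getElem_ofFn]
    have ea : θ (gen (lo ⟨l₁.length, hk⟩)) = a := by
      have := hget l₁.length (by omega) (by simp)
      simpa [lo] using this
    have eb : θ (gen (hi ⟨l₁.length, hk⟩)) = b := by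
      have := hget (l₁.length + 1) (by omega) (by simp)
      simpa [hi] using this
    refine ⟨sigma ⟨l₁.length, hk⟩, ?_⟩
    apply List.ext_getElem
    · simp only [vals, List.length_ofFn, List.length_append, List.length_cons]
      omega
    · intro i h1 h2
      have hid : i < d := by simpa [vals] using h1
      simp only [vals, List.getElem_ofFn]
      rw [act_apply, artin_sigma]
      rcases lt_trichotomy i l₁.length with hi1 | hi1 | hi1
      · rw [artinAut_of_ne, hget i hid (by simp; omega), List.getElem_append_left hi1,
          List.getElem_append_left hi1]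
        · intro h
          have := congrArg Fin.val h
          simp only [lo] at this
          omega
        · intro h
          have := congrArg Fin.val h
          simp only [hi] at this
          omega
      · subst hi1
        have : (⟨l₁.length, hid⟩ : Fin d) = lo ⟨l₁.length, hk⟩ := rfl
        rw [this, artinAut_lo, map_mul, map_mul, map_inv, ea, eb]
        simp
      · by_cases hi2 : i = l₁.length + 1
        · subst hi2
          have : (⟨l₁.length + 1, hid⟩ : Fin d) = hi ⟨l₁.length, hk⟩ := rfl
          rw [this, artinAut_hi, ea]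
          simp
        · obtain ⟨m, rfl⟩ : ∃ m, i = l₁.length + (m + 2) := ⟨i - l₁.length - 2, by omega⟩
          rw [artinAut_of_ne, hget _ hid (by simp; omega)]
          · rw [List.getElem_append_right (by omega), List.getElem_append_right (by omega)]
            simp
          · intro h
            have := congrArg Fin.val h
            simp only [lo] at this
            omega
          · intro h
            have := congrArg Fin.val h
            simp only [hi] at this
            omega

theorem realize {G : Type*} [Group G] {θ : FreeGroup (Fin d) →* G} {t : List G}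
    (h : Hz (vals θ) t) : ∃ g, vals (act θ g) = t := by
  induction h with
  | refl => exact ⟨1, by rw [act_one]⟩
  | tail _ hst ih =>
    obtain ⟨g, hg⟩ := ih
    rw [← hg] at hst
    obtain ⟨g', hg'⟩ := realize_step hst
    exact ⟨g * g', by rw [act_mul, hg']⟩

/-! ### Good lists -/

theorem inv_self (x : Perm (Fin N)) (i : Fin N) : x⁻¹ (x i) = i := x.symm_apply_apply i


/-- Lists of transpositions inside `S`, transitive on `S`, with product one. -/
structure Good (S : Finset (Fin N)) (t : List (Perm (Fin N))) : Prop where
  sw : ∀ x ∈ t, ∃ i ∈ S, ∃ j ∈ S, i ≠ j ∧ x = swap i j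
  trans : ∀ c : Fin N → Prop, (∀ x ∈ t, ∀ i, c (x i) = c i) → ∀ i ∈ S, ∀ j ∈ S, c i = c j
  prod : t.prod = 1

theorem swap_maps {S : Finset (Fin N)} {i j x : Fin N} (hi : i ∈ S) (hj : j ∈ S) (hx : x ∈ S) :
    swap i j x ∈ S := by
  by_cases h1 : x = i
  · rw [h1, Equiv.swap_apply_left]; exact hj
  · by_cases h2 : x = j
    · rw [h2, Equiv.swap_apply_right]; exact hi
    · rw [Equiv.swap_apply_of_ne_of_ne h1 h2]; exact hx

theorem Good.hz {S : Finset (Fin N)} {t t' : List (Perm (Fin N))} (h : Good S t) (hz : Hz t t') :
    Good S t' := by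
  induction hz with
  | refl => exact h
  | tail _ hst ih =>
    cases hst with
    | mk l₁ a b l₂ =>
      refine ⟨?_, ?_, ?_⟩
      · intro x hx
        rw [List.mem_append, List.mem_cons, List.mem_cons] at hx
        rcases hx with hx | hx | hx | hx
        · exact ih.sw x (by simp [hx])
        · obtain ⟨i, hi, j, hj, hij, rfl⟩ := ih.sw a (by simp)
          obtain ⟨i', hi', j', hj', hij', rfl⟩ := ih.sw b (by simp)
          refine ⟨swap i j i', swap_maps hi hj hi', swap i j j', swap_maps hi hj hj',
            fun e => hij' ((swap i j).injective e), ?_⟩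
          rw [hx, Equiv.swap_apply_apply]
        · exact ih.sw x (by simp [hx])
        · exact ih.sw x (by simp [hx])
      · intro c hc
        apply ih.trans c
        intro x hx
        have hca : ∀ i, c (a i) = c i := hc a (by simp)
        have hcb : ∀ i, c ((a * b * a⁻¹) i) = c i := hc _ (by simp)
        rw [List.mem_append, List.mem_cons, List.mem_cons] at hx
        rcases hx with hx | hx | hx | hx
        · exact hc x (by simp [hx])
        · rw [hx]; exact hca
        · intro i
          rw [hx]
          have h1 := hcb (a i)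
          rw [Perm.mul_apply, Perm.mul_apply, inv_self, hca, hca] at h1
          exact h1
        · exact hc x (by simp [hx])
      · have h1 : Hz (l₁ ++ a :: b :: l₂) (l₁ ++ (a * b * a⁻¹) :: a :: l₂) :=
          Relation.ReflTransGen.single (HStep.mk l₁ a b l₂)
        rw [Hz.prod h1]
        exact ih.prod

/-- Moving the transpositions that move `p` to the front. -/
theorem sort_list (p : Fin N) (t : List (Perm (Fin N))) (ht : ∀ x ∈ t, x.IsSwap) :
    ∃ f b, Hz t (f ++ b) ∧ (∀ x ∈ f, x.IsSwap ∧ x p ≠ p) ∧ (∀ x ∈ b, x.IsSwap ∧ x p = p) ∧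
      f.length = t.countP (fun x => decide (x p ≠ p)) := by
  induction t with
  | nil => exact ⟨[], [], Relation.ReflTransGen.refl, by simp, by simp, by simp⟩
  | cons x t ih =>
    obtain ⟨f, b, hz, hf, hb, hlen⟩ := ih fun y hy => ht y (by simp [hy])
    have hx := ht x (by simp)
    by_cases hxp : x p = p
    · refine ⟨f.map (fun y => x * y * x⁻¹), x :: b, ?_, ?_, ?_, ?_⟩
      · have h1 : Hz (x :: t) (x :: (f ++ b)) := hz.cons x
        have h2 : Hz (x :: f ++ b) (f.map (fun y => x * y * x⁻¹) ++ [x] ++ b) :=
          (Hz.move x f).append_right b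
        refine h1.trans ?_
        simpa using h2
      · intro y hy
        rw [List.mem_map] at hy
        obtain ⟨z, hz, rfl⟩ := hy
        refine ⟨swap_conj x (hf z hz).1, ?_⟩
        intro h
        apply (hf z hz).2
        rw [Perm.mul_apply, Perm.mul_apply] at h
        have hxi : x⁻¹ p = p := by
          conv_lhs => rw [← hxp]
          rw [inv_self]
        rw [hxi] at h
        apply x.injective
        rw [h, hxp]
      · intro y hy
        rw [List.mem_cons] at hy
        rcases hy with rfl | hy
        · exact ⟨hx, hxp⟩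
        · exact hb y hy
      · rw [List.length_map, hlen, List.countP_cons_of_neg]
        simp [hxp]
    · refine ⟨x :: f, b, ?_, ?_, hb, ?_⟩
      · exact hz.cons x
      · intro y hy
        rw [List.mem_cons] at hy
        rcases hy with rfl | hy
        · exact ⟨hx, hxp⟩
        · exact hf y hy
      · rw [List.length_cons, hlen, List.countP_cons_of_pos]
        simp [hxp]

theorem const_or_adjacent {α : Type*} (l : List α) :
    (∃ l₁ y z l₂, l = l₁ ++ y :: z :: l₂ ∧ y ≠ z) ∨ l = [] ∨ ∃ x, l = List.replicate l.length x := by
  induction l with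
  | nil => exact Or.inr (Or.inl rfl)
  | cons x l ih =>
    rcases ih with ⟨l₁, y, z, l₂, rfl, hyz⟩ | rfl | ⟨y, hy⟩
    · exact Or.inl ⟨x :: l₁, y, z, l₂, rfl, hyz⟩
    · exact Or.inr (Or.inr ⟨x, rfl⟩)
    · by_cases hxy : x = y
      · subst hxy
        right; right
        refine ⟨x, ?_⟩
        rw [List.length_cons, List.replicate_succ, ← hy]
      · cases l with
        | nil => exact Or.inr (Or.inr ⟨x, rfl⟩)
        | cons z l =>
          rw [List.length_cons, List.replicate_succ, List.cons.injEq] at hy
          exact Or.inl ⟨[], x, z, l, rfl, by rw [hy.1]; exact hxy⟩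

theorem swap_moves {x : Perm (Fin N)} (hx : x.IsSwap) {p : Fin N} (h : x p ≠ p) :
    x = swap p (x p) := by
  obtain ⟨s, t, hst, rfl⟩ := hx
  by_cases h1 : p = s
  · subst h1
    rw [Equiv.swap_apply_left]
  · by_cases h2 : p = t
    · subst h2
      rw [Equiv.swap_apply_right, Equiv.swap_comm]
    · exact absurd (Equiv.swap_apply_of_ne_of_ne h1 h2) h

/-- First normal form: all transpositions moving `p` are equal and in front. -/
theorem normal_one (p : Fin N) (n : ℕ) : ∀ t : List (Perm (Fin N)), (∀ x ∈ t, x.IsSwap) →
    t.countP (fun x => decide (x p ≠ p)) = n →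
    ∃ (m : ℕ) (x : Perm (Fin N)) (b : List (Perm (Fin N))), Hz t (List.replicate m x ++ b) ∧
      (0 < m → x.IsSwap ∧ x p ≠ p) ∧ (∀ y ∈ b, y.IsSwap ∧ y p = p) := by
  induction n using Nat.strong_induction_on with
  | _ n ih =>
    intro t ht hn
    obtain ⟨f, b, hz, hf, hb, hlen⟩ := sort_list p t ht
    rcases const_or_adjacent f with ⟨l₁, y, z, l₂, rfl, hyz⟩ | rfl | ⟨x, hx⟩
    · -- lower the number
      have hy := hf y (by simp)
      have hz' := hf z (by simp)
      have hyzp : (y * z * y⁻¹) p = p := by
        have ey := swap_moves hy.1 hy.2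
        have ez := swap_moves hz'.1 hz'.2
        have hne : y p ≠ z p := fun e => hyz (by rw [ey, ez, e])
        have hyi : y⁻¹ = y := by
          conv_lhs => rw [ey]
          rw [Equiv.swap_inv, ← ey]
        rw [hyi, Perm.mul_apply, Perm.mul_apply]
        have h1 : z (y p) = y p := by
          rw [ez, Equiv.swap_apply_of_ne_of_ne hy.2 hne]
        rw [h1]
        have h2 := inv_self y p
        rwa [hyi] at h2
      have hst : Hz (l₁ ++ y :: z :: l₂ ++ b) (l₁ ++ (y * z * y⁻¹) :: y :: l₂ ++ b) :=
        Hz.append_right (Relation.ReflTransGen.single (HStep.mk l₁ y z l₂)) b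
      have hsw : ∀ x ∈ l₁ ++ (y * z * y⁻¹) :: y :: l₂ ++ b, x.IsSwap := by
        intro x hx
        simp only [List.mem_append, List.mem_cons] at hx
        rcases hx with (hx | rfl | rfl | hx) | hx
        · exact (hf x (by simp [hx])).1
        · exact swap_conj y hz'.1
        · exact hy.1
        · exact (hf x (by simp [hx])).1
        · exact (hb x hx).1
      have hbz : b.countP (fun x => decide (x p ≠ p)) = 0 := by
        rw [List.countP_eq_zero]
        intro x hx
        simp [(hb x hx).2]
      have hcount : (l₁ ++ (y * z * y⁻¹) :: y :: l₂ ++ b).countP (fun x => decide (x p ≠ p)) < n := by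
        rw [← hn, ← hlen]
        rw [List.countP_append, hbz, List.countP_append, List.countP_cons_of_neg (by simp [hyzp])]
        have h1 := List.countP_le_length (p := fun x : Perm (Fin N) => decide (x p ≠ p)) (l := l₁)
        have h2 := List.countP_le_length (p := fun x : Perm (Fin N) => decide (x p ≠ p))
          (l := y :: l₂)
        simp only [List.length_append, List.length_cons] at h2 ⊢
        omega
      obtain ⟨m, x, b', hz'', hx, hb'⟩ := ih _ hcount _ hsw rfl
      exact ⟨m, x, b', (hz.trans hst).trans hz'', hx, hb'⟩
    · exact ⟨0, 1, b, by simpa using hz, fun h => absurd h (lt_irrefl 0), hb⟩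
    · refine ⟨f.length, x, b, by rw [← hx]; exact hz, fun hpos => ?_, hb⟩
      apply hf
      rw [hx]
      exact List.mem_replicate.2 ⟨by simpa using hpos.ne', rfl⟩

/-- Second normal form. -/
theorem normal_two {S : Finset (Fin N)} {t : List (Perm (Fin N))} (h : Good S t) {p : Fin N}
    (hp : p ∈ S) (hS : 2 ≤ S.card) :
    ∃ (m : ℕ) (a : Fin N) (b : List (Perm (Fin N))), 2 ≤ m ∧ a ∈ S ∧ a ≠ p ∧
      Hz t (List.replicate m (swap p a) ++ b) ∧ Good (S.erase p) b := by
  have hsw : ∀ x ∈ t, x.IsSwap := by
    intro x hx
    obtain ⟨i, -, j, -, hij, rfl⟩ := h.sw x hx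
    exact ⟨i, j, hij, rfl⟩
  obtain ⟨m, x, b, hz, hx, hb⟩ := normal_one p _ t hsw rfl
  have hg := h.hz hz
  -- some other point
  obtain ⟨r, hr, hrp⟩ : ∃ r ∈ S, r ≠ p := Finset.exists_mem_ne (by omega) p
  have hm : 0 < m := by
    by_contra hc
    have hm0 : m = 0 := by omega
    subst hm0
    have := hg.trans (fun i => i = p) (by
      intro y hy i
      rw [List.replicate_zero, List.nil_append] at hy
      have hyp := (hb y hy).2
      apply propext
      constructor
      · intro e
        apply y.injective
        rw [e, hyp]
      · intro e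
        rw [e, hyp]) p hp r hr
    exact hrp (this.mp rfl)
  obtain ⟨hxs, hxp⟩ := hx hm
  have hxe := swap_moves hxs hxp
  set a := x p with ha
  have haS : a ∈ S := by
    obtain ⟨i, hi, j, hj, hij, hxij⟩ := hg.sw x (by
      rw [List.mem_append]
      exact Or.inl (List.mem_replicate.2 ⟨hm.ne', rfl⟩))
    rw [ha, hxij]
    exact swap_maps hi hj hp
  have hprod := hg.prod
  rw [List.prod_append, List.prod_replicate] at hprod
  have hbp : b.prod p = p := by
    clear hz hg hprod
    induction b with
    | nil => rfl
    | cons y b ih =>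
      rw [List.prod_cons, Perm.mul_apply, ih fun z hz => hb z (by simp [hz])]
      exact (hb y (by simp)).2
  have hxx : x * x = 1 := by
    rw [hxe, Equiv.swap_mul_self]
  have heven : Even m := by
    rcases Nat.even_or_odd m with he | ⟨r, hr⟩
    · exact he
    · exfalso
      have h1 : x ^ m = x := by
        rw [hr, pow_succ, pow_mul, pow_two, hxx, one_pow, one_mul]
      rw [h1] at hprod
      have h2 := congrArg (fun π : Perm (Fin N) => π p) hprod
      simp only [Perm.mul_apply, hbp, Perm.one_apply] at h2
      exact hxp h2
  have hxm : x ^ m = 1 := by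
    obtain ⟨r, hr⟩ := heven
    rw [hr, ← two_mul, pow_mul, pow_two, hxx, one_pow]
  refine ⟨m, a, b, ?_, haS, hxp, ?_, ⟨?_, ?_, ?_⟩⟩
  · obtain ⟨r, hr⟩ := heven
    omega
  · rw [← hxe]; exact hz
  · intro y hy
    obtain ⟨i, hi, j, hj, hij, rfl⟩ := hg.sw y (by rw [List.mem_append]; exact Or.inr hy)
    have hyp := (hb _ hy).2
    refine ⟨i, Finset.mem_erase.2 ⟨?_, hi⟩, j, Finset.mem_erase.2 ⟨?_, hj⟩, hij, rfl⟩
    · rintro rfl
      rw [Equiv.swap_apply_left] at hyp
      exact hij hyp.symm
    · rintro rfl
      rw [Equiv.swap_apply_right] at hyp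
      exact hij hyp
  · intro c hc i hi j hj
    have hi' := Finset.mem_erase.1 hi
    have hj' := Finset.mem_erase.1 hj
    let c' : Fin N → Prop := fun i => if i = p then c a else c i
    have hc' : ∀ i, i ≠ p → c' i = c i := fun i hi => if_neg hi
    have hcp : c' p = c a := if_pos rfl
    have := hg.trans c' (by
      intro y hy i
      rw [List.mem_append] at hy
      rcases hy with hy | hy
      · rw [(List.mem_replicate.1 hy).2, hxe]
        by_cases h1 : i = p
        · rw [h1, Equiv.swap_apply_left, hcp, hc' a hxp]
        · by_cases h2 : i = a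
          · rw [h2, Equiv.swap_apply_right, hcp, hc' a hxp]
          · rw [Equiv.swap_apply_of_ne_of_ne h1 h2]
      · have hyp := (hb y hy).2
        by_cases h1 : i = p
        · rw [h1, hyp]
        · have h2 : y i ≠ p := fun e => h1 (y.injective (by rw [e, hyp]))
          rw [hc' _ h2, hc' _ h1, hc y hy]) i hi'.2 j hj'.2
    rwa [hc' i hi'.1, hc' j hj'.1] at this
  · rwa [hxm, one_mul] at hprod

/-- The planar bound. -/
theorem planar_bound (n : ℕ) : ∀ (S : Finset (Fin N)) (t : List (Perm (Fin N))), S.card = n + 1 →
    Good S t → 2 * n ≤ t.length := by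
  induction n with
  | zero => intro S t _ _; omega
  | succ n ih =>
    intro S t hS h
    obtain ⟨p, hp⟩ : S.Nonempty := Finset.card_pos.1 (by omega)
    obtain ⟨m, a, b, hm, -, -, hz, hg⟩ := normal_two h hp (by omega)
    have h1 := ih (S.erase p) b (by rw [Finset.card_erase_of_mem hp, hS]; omega) hg
    have h2 := Hz.length hz
    rw [List.length_append, List.length_replicate] at h2
    omega

/-- Planar normal form. -/
theorem planar_normal {S : Finset (Fin N)} {t : List (Perm (Fin N))} (h : Good S t) {p : Fin N}
    (hp : p ∈ S) (hS : 2 ≤ S.card) (hlen : t.length + 2 = 2 * S.card) :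
    ∃ (a : Fin N) (b : List (Perm (Fin N))), a ∈ S ∧ a ≠ p ∧
      Hz t (swap p a :: swap p a :: b) ∧ Good (S.erase p) b := by
  obtain ⟨m, a, b, hm, haS, hap, hz, hg⟩ := normal_two h hp hS
  have h1 := planar_bound (S.card - 2) (S.erase p) b (by
    rw [Finset.card_erase_of_mem hp]; omega) hg
  have h2 := Hz.length hz
  rw [List.length_append, List.length_replicate] at h2
  have hm2 : m = 2 := by omega
  subst hm2
  exact ⟨a, b, haS, hap, hz, hg⟩

end MPd28408
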