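import Pool.Agent.Lib.MP_d28408_gt.Artin

/-!
# MP_d28408_gt : crossed homomorphisms of the free group and their coboundaries

`Lsp θ` is the space of lifts of `θ` to affine reflections: crossed homomorphisms `δ` of the free
group with values in `ℚ ^ N` with `δ (x_k ^ 2) = 0`. In the planar case (`d = 2 N - 2`) such a `δ` with
`δ (x_1 ... x_d) = 0` is a coboundary.
-/

open Equiv

namespace MPd28408

variable {N d : ℕ}

/-- Lifts of `θ` to affine reflections, as crossed homomorphisms. -/
def Lsp (θ : FreeGroup (Fin d) →* Perm (Fin N)) : Submodule ℚ (FreeGroup (Fin d) → Fin N → ℚ) where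
  carrier := {δ | (∀ w w' j, δ (w * w') j = δ w j + δ w' ((θ w).symm j)) ∧
    ∀ k, δ (gen k * gen k) = 0}
  add_mem' := by
    rintro a b ⟨ha, ha'⟩ ⟨hb, hb'⟩
    refine ⟨fun w w' j => ?_, fun k => ?_⟩
    · simp only [Pi.add_apply, ha, hb]
      ring
    · simp only [Pi.add_apply, ha', hb', add_zero]
  zero_mem' := ⟨fun w w' j => by simp, fun k => rfl⟩
  smul_mem' := by
    rintro c a ⟨ha, ha'⟩
    refine ⟨fun w w' j => ?_, fun k => ?_⟩
    · simp only [Pi.smul_apply, ha, smul_add]
    · simp only [Pi.smul_apply, ha', smul_zero]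

/-- Coboundaries. -/
def cob (θ : FreeGroup (Fin d) →* Perm (Fin N)) :
    (Fin N → ℚ) →ₗ[ℚ] (FreeGroup (Fin d) → Fin N → ℚ) where
  toFun u w j := u ((θ w).symm j) - u j
  map_add' u v := by
    funext w j
    simp only [Pi.add_apply]
    ring
  map_smul' c u := by
    funext w j
    simp only [Pi.smul_apply, smul_eq_mul, RingHom.id_apply]
    ring

theorem cob_apply (θ : FreeGroup (Fin d) →* Perm (Fin N)) (u : Fin N → ℚ) (w : FreeGroup (Fin d))
    (j : Fin N) : cob θ u w j = u ((θ w).symm j) - u j := rfl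

variable {θ : FreeGroup (Fin d) →* Perm (Fin N)} {δ δ' : FreeGroup (Fin d) → Fin N → ℚ}

theorem Lsp_mul (h : δ ∈ Lsp θ) (w w' : FreeGroup (Fin d)) (j : Fin N) :
    δ (w * w') j = δ w j + δ w' ((θ w).symm j) := h.1 w w' j

theorem Lsp_sq (h : δ ∈ Lsp θ) (k : Fin d) : δ (gen k * gen k) = 0 := h.2 k

theorem Lsp_one (h : δ ∈ Lsp θ) : δ 1 = 0 := by
  funext j
  have := Lsp_mul h 1 1 j
  rw [mul_one, map_one] at this
  change δ 1 j = δ 1 j + δ 1 j at this
  simpa using this

theorem Lsp_inv (h : δ ∈ Lsp θ) (w : FreeGroup (Fin d)) (j : Fin N) :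
    δ w⁻¹ j = - δ w (θ w j) := by
  have := Lsp_mul h w w⁻¹ (θ w j)
  rw [mul_inv_cancel, Lsp_one h, Equiv.symm_apply_apply] at this
  change (0 : ℚ) = _ at this
  linarith

theorem symm_mul (w w' : FreeGroup (Fin d)) (j : Fin N) :
    (θ (w * w')).symm j = (θ w').symm ((θ w).symm j) := by
  rw [map_mul]
  rfl

theorem cob_mem (hsq : ∀ k, θ (gen k * gen k) = 1) (u : Fin N → ℚ) : cob θ u ∈ Lsp θ := by
  refine ⟨fun w w' j => ?_, fun k => ?_⟩
  · rw [cob_apply, cob_apply, cob_apply, symm_mul]
    ring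
  · funext j
    rw [cob_apply, hsq]
    exact sub_self _

/-- Elements of `Lsp θ` agreeing on the generators are equal. -/
theorem Lsp_ext (h : δ ∈ Lsp θ) (h' : δ' ∈ Lsp θ) (he : ∀ k, δ (gen k) = δ' (gen k)) : δ = δ' := by
  funext w
  induction w using FreeGroup.induction_on with
  | C1 => rw [Lsp_one h, Lsp_one h']
  | of k => exact he k
  | inv_of k hk =>
    funext j
    rw [Lsp_inv h, Lsp_inv h']
    congr 1
    exact congrFun (he k) _
  | mul w w' hw hw' =>
    funext j
    rw [Lsp_mul h, Lsp_mul h', hw, hw']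

/-- There is an element of `Lsp θ` with given admissible values on the generators. -/
theorem exists_Lsp (a : Fin d → Fin N → ℚ) (ha : ∀ k j, a k j + a k ((θ (gen k)).symm j) = 0) :
    ∃ δ ∈ Lsp θ, ∀ k, δ (gen k) = a k := by
  let A := (Fin N → Multiplicative ℚ) ⋊[mulAutArrow] (Perm (Fin N))
  let Θ : FreeGroup (Fin d) →* A :=
    FreeGroup.lift fun k => ⟨fun j => Multiplicative.ofAdd (a k j), θ (gen k)⟩
  have hr : ∀ w, (Θ w).right = θ w := by
    intro w
    have : (SemidirectProduct.rightHom.comp Θ) = θ := by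
      apply FreeGroup.ext_hom
      intro k
      simp [Θ]
    exact DFunLike.congr_fun this w
  let δ : FreeGroup (Fin d) → Fin N → ℚ := fun w j => Multiplicative.toAdd ((Θ w).left j)
  have hδ : ∀ k, δ (gen k) = a k := by
    intro k
    funext j
    simp [δ, Θ]
  have hmul : ∀ w w' j, δ (w * w') j = δ w j + δ w' ((θ w).symm j) := by
    intro w w' j
    change Multiplicative.toAdd ((Θ (w * w')).left j) =
      Multiplicative.toAdd ((Θ w).left j) + Multiplicative.toAdd ((Θ w').left ((θ w).symm j))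
    rw [map_mul, SemidirectProduct.mul_left, Pi.mul_apply, toAdd_mul, ← hr w]
    rfl
  refine ⟨δ, ⟨hmul, fun k => ?_⟩, hδ⟩
  funext j
  rw [hmul, hδ]
  exact ha k j

theorem Lsp_sum (h : δ ∈ Lsp θ) (w : FreeGroup (Fin d)) : ∑ j, δ w j = 0 := by
  have hmul : ∀ w w', ∑ j, δ (w * w') j = ∑ j, δ w j + ∑ j, δ w' j := by
    intro w w'
    rw [← Equiv.sum_comp (θ w).symm (fun j => δ w' j), ← Finset.sum_add_distrib]
    exact Finset.sum_congr rfl fun j _ => Lsp_mul h w w' j
  induction w using FreeGroup.induction_on with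
  | C1 => rw [Lsp_one h]; simp
  | of k =>
    have h1 := hmul (gen k) (gen k)
    rw [Lsp_sq h] at h1
    simp only [Pi.zero_apply, Finset.sum_const_zero] at h1
    change ∑ j, δ (gen k) j = 0
    linarith
  | inv_of k hk =>
    have h1 := hmul (FreeGroup.of k) (FreeGroup.of k)⁻¹
    rw [mul_inv_cancel, Lsp_one h, hk] at h1
    simp only [Pi.zero_apply, Finset.sum_const_zero] at h1
    linarith
  | mul w w' hw hw' => rw [hmul, hw, hw', add_zero]

/-- The values on the generators. -/
theorem Lsp_swap (h : δ ∈ Lsp θ) {k : Fin d} {s t : Fin N} (hk : θ (gen k) = swap s t)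
    (j : Fin N) :
    δ (gen k) j = if j = s then δ (gen k) s else if j = t then - δ (gen k) s else 0 := by
  have key : ∀ j, δ (gen k) j + δ (gen k) (swap s t j) = 0 := by
    intro j
    have h1 := Lsp_mul h (gen k) (gen k) j
    rw [Lsp_sq h, hk, Equiv.symm_swap] at h1
    exact h1.symm
  by_cases h1 : j = s
  · rw [if_pos h1, h1]
  · rw [if_neg h1]
    by_cases h2 : j = t
    · rw [if_pos h2, h2]
      have := key s
      rw [Equiv.swap_apply_left] at this
      linarith
    · rw [if_neg h2]
      have := key j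
      rw [Equiv.swap_apply_of_ne_of_ne h1 h2] at this
      linarith

/-! ### Transitivity -/

/-- `θ` is transitive. -/
def IsTrans (θ : FreeGroup (Fin d) →* Perm (Fin N)) : Prop := ∀ i j, ∃ w, θ w i = j

theorem IsTrans.of_surjective (h : Function.Surjective θ) : IsTrans θ := by
  intro i j
  obtain ⟨w, hw⟩ := h (swap i j)
  exact ⟨w, by rw [hw, Equiv.swap_apply_left]⟩

theorem inv_word {β : Type*} (c : Fin N → β) (h : ∀ k j, c (θ (gen k) j) = c j)
    (w : FreeGroup (Fin d)) (j : Fin N) : c (θ w j) = c j := by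
  induction w using FreeGroup.induction_on generalizing j with
  | C1 => rw [map_one]; rfl
  | of k => exact h k j
  | inv_of k hk =>
    have h1 := hk ((θ (FreeGroup.of k)⁻¹) j)
    rw [← Perm.mul_apply, ← map_mul, mul_inv_cancel, map_one] at h1
    exact h1.symm
  | mul w w' hw hw' => rw [map_mul, Perm.mul_apply, hw, hw']

theorem IsTrans.const {β : Type*} (hT : IsTrans θ) {c : Fin N → β}
    (h : ∀ k j, c (θ (gen k) j) = c j) (i j : Fin N) : c i = c j := by
  obtain ⟨w, hw⟩ := hT i j
  rw [← hw, inv_word c h]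

theorem swap_sq (hs : ∀ k, (θ (gen k)).IsSwap) (k : Fin d) : θ (gen k * gen k) = 1 := by
  obtain ⟨s, t, -, h⟩ := hs k
  rw [map_mul, h, Equiv.swap_mul_self]

/-! ### Surjectivity onto the vectors of sum zero -/

/-- `i` and `j` are related if the difference of the unit vectors is a value at the product. -/
def Rel (θ : FreeGroup (Fin d) →* Perm (Fin N)) (i j : Fin N) : Prop :=
  ∃ δ ∈ Lsp θ, δ (total d) = Pi.single i 1 - Pi.single j 1

theorem Rel.refl (i : Fin N) : Rel θ i i := ⟨0, zero_mem _, by rw [sub_self]; rfl⟩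

theorem Rel.symm {i j : Fin N} (h : Rel θ i j) : Rel θ j i := by
  obtain ⟨δ, h1, h2⟩ := h
  exact ⟨-δ, neg_mem h1, by rw [Pi.neg_apply, h2, neg_sub]⟩

theorem Rel.trans {i j k : Fin N} (h : Rel θ i j) (h' : Rel θ j k) : Rel θ i k := by
  obtain ⟨δ, h1, h2⟩ := h
  obtain ⟨δ', h1', h2'⟩ := h'
  exact ⟨δ + δ', add_mem h1 h1', by rw [Pi.add_apply, h2, h2', sub_add_sub_cancel]⟩

theorem single_symm (π : Perm (Fin N)) (s j : Fin N) :
    (Pi.single s 1 : Fin N → ℚ) (π.symm j) = (Pi.single (π s) 1 : Fin N → ℚ) j := by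
  by_cases h : j = π s
  · subst h
    rw [Equiv.symm_apply_apply, Pi.single_eq_same, Pi.single_eq_same]
  · rw [Pi.single_eq_of_ne h, Pi.single_eq_of_ne]
    intro h'
    exact h (by rw [← h', Equiv.apply_symm_apply])

theorem rel_gen {k : Fin d} {s t : Fin N} (hk : θ (gen k) = swap s t) :
    Rel θ (θ (pre d k) s) (θ (pre d k) t) := by
  let a : Fin d → Fin N → ℚ := fun l => if l = k then Pi.single s 1 - Pi.single t 1 else 0
  have ha : ∀ l j, a l j + a l ((θ (gen l)).symm j) = 0 := by
    intro l j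
    by_cases hl : l = k
    · subst hl
      simp only [a, if_true, Pi.sub_apply]
      rw [single_symm, single_symm, hk, Equiv.swap_apply_left, Equiv.swap_apply_right]
      ring
    · simp [a, hl]
  obtain ⟨δ, hδ, hδa⟩ := exists_Lsp a ha
  have h1 : ∀ n, n ≤ (k : ℕ) → δ (pre d n) = 0 := by
    intro n hn
    induction n with
    | zero => rw [pre_zero, Lsp_one hδ]
    | succ n ih =>
      have hnd : n < d := by omega
      funext j
      rw [pre_succ hnd, Lsp_mul hδ, ih (by omega), hδa]
      have : (⟨n, hnd⟩ : Fin d) ≠ k := fun h => by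
        have := congrArg Fin.val h
        simp only at this
        omega
      simp [a, this]
  have h2 : ∀ n, (k : ℕ) + 1 ≤ n → n ≤ d →
      δ (pre d n) = Pi.single (θ (pre d k) s) 1 - Pi.single (θ (pre d k) t) 1 := by
    intro n hn hnd
    induction n, hn using Nat.le_induction with
    | base =>
      funext j
      rw [pre_succ k.2, Lsp_mul hδ, h1 k le_rfl, hδa]
      simp only [a, Fin.eta, if_true, Pi.zero_apply, zero_add, Pi.sub_apply]
      rw [single_symm, single_symm]
    | succ n hn ih =>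
      have hnd' : n < d := by omega
      funext j
      rw [pre_succ hnd', Lsp_mul hδ, ih (by omega), hδa]
      have : (⟨n, hnd'⟩ : Fin d) ≠ k := fun h => by
        have := congrArg Fin.val h
        simp only at this
        omega
      simp [a, this]
  refine ⟨δ, hδ, ?_⟩
  rw [← pre_total]
  exact h2 d k.2 le_rfl

theorem rel_pre (hs : ∀ k, (θ (gen k)).IsSwap) {n : ℕ} (hn : n ≤ d) (i : Fin N) :
    Rel θ (θ (pre d n) i) i := by
  induction n generalizing i with
  | zero => rw [pre_zero, map_one]; exact Rel.refl i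
  | succ n ih =>
    have hnd : n < d := by omega
    rw [pre_succ hnd, map_mul, Perm.mul_apply]
    obtain ⟨s, t, -, hk⟩ := hs ⟨n, hnd⟩
    have hR := rel_gen hk
    by_cases h1 : i = s
    · subst h1
      rw [hk, Equiv.swap_apply_left]
      exact hR.symm.trans (ih (by omega) i)
    · by_cases h2 : i = t
      · subst h2
        rw [hk, Equiv.swap_apply_right]
        exact hR.trans (ih (by omega) i)
      · rw [hk, Equiv.swap_apply_of_ne_of_ne h1 h2]
        exact ih (by omega) i

theorem rel_apply (hs : ∀ k, (θ (gen k)).IsSwap) (k : Fin d) (j : Fin N) :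
    Rel θ (θ (gen k) j) j := by
  obtain ⟨s, t, -, hk⟩ := hs k
  have hR := rel_gen hk
  have hR' : Rel θ s t :=
    (rel_pre hs k.2.le s).symm.trans (hR.trans (rel_pre hs k.2.le t))
  by_cases h1 : j = s
  · subst h1
    rw [hk, Equiv.swap_apply_left]
    exact hR'.symm
  · by_cases h2 : j = t
    · subst h2
      rw [hk, Equiv.swap_apply_right]
      exact hR'
    · rw [hk, Equiv.swap_apply_of_ne_of_ne h1 h2]
      exact Rel.refl j

theorem rel_all (hs : ∀ k, (θ (gen k)).IsSwap) (hT : IsTrans θ) (i j : Fin N) : Rel θ i j := by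
  have h := hT.const (c := fun x => Rel θ x j) (fun k x => propext
    ⟨fun h => (rel_apply hs k x).symm.trans h, fun h => (rel_apply hs k x).trans h⟩) i j
  exact h.mpr (Rel.refl j)

/-! ### The planar case -/

theorem planar_coboundary (hs : ∀ k, (θ (gen k)).IsSwap) (hT : IsTrans θ) (hP : θ (total d) = 1)
    (hN : 0 < N) (hd : d + 2 = 2 * N) (hδ : δ ∈ Lsp θ) (h0 : δ (total d) = 0) :
    ∃ u, δ = cob θ u := by
  choose s t hst hk using hs
  -- the space is finite-dimensional
  let ι : Lsp θ →ₗ[ℚ] (Fin d → ℚ) :=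
    { toFun := fun δ k => δ.1 (gen k) (s k)
      map_add' := fun _ _ => rfl
      map_smul' := fun _ _ => rfl }
  have hι : Function.Injective ι := by
    rw [← LinearMap.ker_eq_bot, LinearMap.ker_eq_bot']
    intro δ hδ0
    apply Subtype.ext
    apply Lsp_ext δ.2 (zero_mem _)
    intro k
    funext j
    rw [Lsp_swap δ.2 (hk k)]
    have : δ.1 (gen k) (s k) = 0 := congrFun hδ0 k
    rw [this]
    simp
  have : Module.Finite ℚ (Lsp θ) := Module.Finite.of_injective ι hι
  have hL : Module.finrank ℚ (Lsp θ) ≤ d := by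
    have := LinearMap.finrank_le_finrank_of_injective hι
    rwa [Module.finrank_fintype_fun_eq_card, Fintype.card_fin] at this
  -- evaluation
  let ev : Lsp θ →ₗ[ℚ] (Fin N → ℚ) :=
    { toFun := fun δ => δ.1 (total d)
      map_add' := fun _ _ => rfl
      map_smul' := fun _ _ => rfl }
  let sm : (Fin N → ℚ) →ₗ[ℚ] ℚ :=
    { toFun := fun v => ∑ j, v j
      map_add' := fun v w => by simp [Finset.sum_add_distrib]
      map_smul' := fun c v => by simp [Finset.mul_sum] }
  have hsm : LinearMap.ker sm ≤ LinearMap.range ev := by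
    intro v hv
    have hv' : ∑ j, v j = 0 := hv
    have hrel : ∀ i : Fin N, (Pi.single i 1 - Pi.single ⟨0, hN⟩ 1 : Fin N → ℚ) ∈
        LinearMap.range ev := by
      intro i
      obtain ⟨δ, h1, h2⟩ := rel_all (fun k => ⟨s k, t k, hst k, hk k⟩) hT i ⟨0, hN⟩
      exact ⟨⟨δ, h1⟩, h2⟩
    have hvs : v = ∑ i, v i • (Pi.single i 1 - Pi.single ⟨0, hN⟩ 1 : Fin N → ℚ) := by
      funext j
      simp only [Finset.sum_apply, Pi.smul_apply, Pi.sub_apply, smul_eq_mul, mul_sub,
        Finset.sum_sub_distrib]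
      rw [← Finset.sum_mul, hv', zero_mul, sub_zero]
      simp [Pi.single_apply]
    rw [hvs]
    exact Submodule.sum_mem _ fun i _ => Submodule.smul_mem _ _ (hrel i)
  have hker : Module.finrank ℚ (LinearMap.ker sm) + 1 = N := by
    have h1 := LinearMap.finrank_range_add_finrank_ker sm
    have h2 : LinearMap.range sm = ⊤ := by
      rw [LinearMap.range_eq_top]
      intro c
      refine ⟨Pi.single ⟨0, hN⟩ c, ?_⟩
      change ∑ j, (Pi.single ⟨0, hN⟩ c : Fin N → ℚ) j = c
      simp
    rw [h2, finrank_top, Module.finrank_self, Module.finrank_fintype_fun_eq_card,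
      Fintype.card_fin] at h1
    omega
  have hrange : N ≤ Module.finrank ℚ (LinearMap.range ev) + 1 := by
    have := Submodule.finrank_mono hsm
    omega
  have hkerev : Module.finrank ℚ (LinearMap.ker ev) + 1 ≤ N := by
    have h1 := LinearMap.finrank_range_add_finrank_ker ev
    omega
  -- coboundaries
  have hsq : ∀ k, θ (gen k * gen k) = 1 := by
    intro k
    rw [map_mul, hk, Equiv.swap_mul_self]
  let cb : (Fin N → ℚ) →ₗ[ℚ] Lsp θ := (cob θ).codRestrict (Lsp θ) (cob_mem hsq)
  have hcbker : Module.finrank ℚ (LinearMap.ker cb) ≤ 1 := by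
    have hle : LinearMap.ker cb ≤ Submodule.span ℚ {(fun _ => 1 : Fin N → ℚ)} := by
      intro u hu
      have hu' : cob θ u = 0 := congrArg Subtype.val hu
      have hc : ∀ i j, u i = u j := by
        apply hT.const
        intro k j
        have h1 := congrFun (congrFun hu' (gen k)) j
        rw [cob_apply, hk, Equiv.symm_swap, ← hk] at h1
        change _ = (0 : ℚ) at h1
        linarith
      rw [Submodule.mem_span_singleton]
      refine ⟨u ⟨0, hN⟩, ?_⟩
      funext j
      rw [Pi.smul_apply, smul_eq_mul, mul_one]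
      exact hc _ _
    refine (Submodule.finrank_mono hle).trans ?_
    refine (finrank_span_le_card _).trans ?_
    simp
  have hcbrange : N ≤ Module.finrank ℚ (LinearMap.range cb) + 1 := by
    have h1 := LinearMap.finrank_range_add_finrank_ker cb
    rw [Module.finrank_fintype_fun_eq_card, Fintype.card_fin] at h1
    omega
  have hle : LinearMap.range cb ≤ LinearMap.ker ev := by
    rintro _ ⟨u, rfl⟩
    rw [LinearMap.mem_ker]
    funext j
    change cob θ u (total d) j = 0
    rw [cob_apply, hP]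
    exact sub_self _
  have heq : LinearMap.range cb = LinearMap.ker ev :=
    Submodule.eq_of_le_of_finrank_le hle (by omega)
  have hmem : (⟨δ, hδ⟩ : Lsp θ) ∈ LinearMap.range cb := by
    rw [heq, LinearMap.mem_ker]
    exact h0
  obtain ⟨u, hu⟩ := hmem
  exact ⟨u, (congrArg Subtype.val hu).symm⟩

end MPd28408
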