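import Pool.Agent.Lib.MP_d28408_gt.Table

/-!
# MP_d28408_gt : degree three, six branch points

Two integer valued homomorphisms of the liftable braid group, from the tables, show that no
factorization of the full twist generates it.
-/

open Equiv

namespace MPd28408

namespace Cubic

/-- Encoded lists of six transpositions together with two integers. -/
abbrev St : Type := Fin 729 × ℤ × ℤ

/-- The action on encoded lists. -/
def hurF (k : Fin (6 - 1)) (n : Fin 729) : Fin 729 := ⟨hurN k n, hur_lt k k.2 n n.2⟩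

theorem hurF_cube (k : Fin (6 - 1)) (n : Fin 729) : hurF k (hurF k (hurF k n)) = n :=
  Fin.ext (hur_cube k k.2 n n.2)

/-- First cocycle. -/
def c1 (k : Fin (6 - 1)) (n : Fin 729) : ℤ := (t1 k n : ℤ) - 3

/-- Second cocycle. -/
def c2 (k : Fin (6 - 1)) (n : Fin 729) : ℤ := (t2 k n : ℤ) - 1

/-- The action of the generator number `k` on the states with integers. -/
def pk (k : Fin (6 - 1)) : Perm St where
  toFun x := (hurF k x.1, x.2.1 + c1 k x.1, x.2.2 + c2 k x.1)
  invFun x := (hurF k (hurF k x.1), x.2.1 - c1 k (hurF k (hurF k x.1)),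
    x.2.2 - c2 k (hurF k (hurF k x.1)))
  left_inv x := by
    simp only [hurF_cube, add_sub_cancel_right, Prod.mk.eta]
  right_inv x := by
    simp only [hurF_cube, sub_add_cancel, Prod.mk.eta]

theorem pk_apply (k : Fin (6 - 1)) (x : St) :
    pk k x = (hurF k x.1, x.2.1 + c1 k x.1, x.2.2 + c2 k x.1) := rfl

theorem pk_rels : ∀ r ∈ braidRels 6,
    FreeGroup.lift (fun k => MulOpposite.op (pk k)) r = 1 := by
  rintro r ⟨i, j, ⟨hij, rfl⟩ | ⟨hij, rfl⟩⟩
  · rw [map_mul, map_inv, mul_inv_eq_one]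
    simp only [map_mul, FreeGroup.lift_apply_of]
    apply MulOpposite.unop_injective
    simp only [MulOpposite.unop_mul, MulOpposite.unop_op]
    have hi4 : (i : ℕ) < 4 := by omega
    ext1 x
    simp only [Perm.mul_apply, pk_apply]
    have h1 := hur_braid i hi4 x.1 x.1.2
    have h2 := t1_braid i hi4 x.1 x.1.2
    have h3 := t2_braid i hi4 x.1 x.1.2
    rw [hij] at h1 h2 h3
    refine Prod.ext (Fin.ext h1) (Prod.ext ?_ ?_)
    · simp only [c1, hurF]
      push_cast [← @Nat.cast_inj ℤ] at h2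
      linarith
    · simp only [c2, hurF]
      push_cast [← @Nat.cast_inj ℤ] at h3
      linarith
  · rw [map_mul, map_inv, mul_inv_eq_one]
    simp only [map_mul, FreeGroup.lift_apply_of]
    apply MulOpposite.unop_injective
    simp only [MulOpposite.unop_mul, MulOpposite.unop_op]
    ext1 x
    simp only [Perm.mul_apply, pk_apply]
    have h1 := hur_comm i i.2 j j.2 hij x.1 x.1.2
    have h2 := t1_comm i i.2 j j.2 hij x.1 x.1.2
    have h3 := t2_comm i i.2 j j.2 hij x.1 x.1.2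
    refine Prod.ext (Fin.ext h1) (Prod.ext ?_ ?_)
    · simp only [c1, hurF]
      push_cast [← @Nat.cast_inj ℤ] at h2
      linarith
    · simp only [c2, hurF]
      push_cast [← @Nat.cast_inj ℤ] at h3
      linarith

/-- The right action of braids on states with integers. -/
def Phi : Braid 6 →* (Perm St)ᵐᵒᵖ := PresentedGroup.toGroup pk_rels

/-- The right action of braids on states with integers. -/
def R (b : Braid 6) (x : St) : St := (Phi b).unop x

theorem R_sigma (k : Fin (6 - 1)) (x : St) : R (sigma k) x = pk k x := by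
  rw [R, sigma, Phi, PresentedGroup.toGroup.of]
  rfl

theorem R_mul (a b : Braid 6) (x : St) : R (a * b) x = R b (R a x) := by
  rw [R, map_mul]
  rfl

theorem R_one (x : St) : R 1 x = x := by
  rw [R, map_one]
  rfl

theorem R_inv_self (b : Braid 6) (x : St) : R b⁻¹ (R b x) = x := by
  rw [← R_mul, mul_inv_cancel, R_one]

theorem R_self_inv (b : Braid 6) (x : St) : R b (R b⁻¹ x) = x := by
  rw [← R_mul, inv_mul_cancel, R_one]

/-- Translation. -/
def tr (z : ℤ × ℤ) (x : St) : St := (x.1, x.2.1 + z.1, x.2.2 + z.2)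

theorem R_tr (b : Braid 6) (z : ℤ × ℤ) (x : St) : R b (tr z x) = tr z (R b x) := by
  induction b using braid_induction generalizing x with
  | h1 => rw [R_one, R_one]
  | hs k =>
    rw [R_sigma, R_sigma, pk_apply, pk_apply]
    simp only [tr]
    refine Prod.ext rfl (Prod.ext ?_ ?_)
    · change x.2.1 + z.1 + c1 k x.1 = x.2.1 + c1 k x.1 + z.1
      ring
    · change x.2.2 + z.2 + c2 k x.1 = x.2.2 + c2 k x.1 + z.2
      ring
  | hm a b ha hb => rw [R_mul, R_mul, ha, hb]
  | hi a ha =>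
    have h1 := ha (R a⁻¹ x)
    rw [R_self_inv] at h1
    rw [← h1, R_inv_self]

/-! ### The state of a fibre monodromy -/

/-- The sheet fixed by a transposition of three sheets. -/
def col (π : Perm (Fin 3)) : ℕ := if π 0 = 0 then 0 else if π 1 = 1 then 1 else 2

theorem col_lt (π : Perm (Fin 3)) : col π < 3 := by
  unfold col
  split_ifs <;> omega

theorem isSwap_cases {π : Perm (Fin 3)} (h : π.IsSwap) : π = swap 1 2 ∨ π = swap 0 2 ∨ π = swap 0 1 := by
  obtain ⟨s, t, hst, rfl⟩ := h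
  fin_cases s <;> fin_cases t <;> first
    | exact absurd rfl hst
    | exact Or.inl rfl
    | exact Or.inr (Or.inl rfl)
    | exact Or.inr (Or.inr rfl)
    | exact Or.inl (Equiv.swap_comm _ _)
    | exact Or.inr (Or.inl (Equiv.swap_comm _ _))
    | exact Or.inr (Or.inr (Equiv.swap_comm _ _))

theorem col_inj {π π' : Perm (Fin 3)} (h : π.IsSwap) (h' : π'.IsSwap) (he : col π = col π') :
    π = π' := by
  rcases isSwap_cases h with rfl | rfl | rfl <;> rcases isSwap_cases h' with rfl | rfl | rfl <;>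
    first
    | rfl
    | exact absurd he (by decide)

theorem col_conj {π π' : Perm (Fin 3)} (h : π.IsSwap) (h' : π'.IsSwap) :
    col (π * π' * π⁻¹) = (2 * col π + 2 * col π') % 3 := by
  rcases isSwap_cases h with rfl | rfl | rfl <;> rcases isSwap_cases h' with rfl | rfl | rfl <;>
    decide

/-- The code of a vector of digits. -/
def codeV (c : Fin 6 → ℕ) : ℕ := c 0 + 3 * c 1 + 9 * c 2 + 27 * c 3 + 81 * c 4 + 243 * c 5

theorem codeV_update (k : Fin (6 - 1)) (c c' : Fin 6 → ℕ)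
    (hne : ∀ j, j ≠ lo k → j ≠ hi k → c' j = c j) (hhi : c' (hi k) = c (lo k)) :
    codeV c' = codeV c - c (lo k) * 3 ^ (k : ℕ) - c (hi k) * 3 ^ ((k : ℕ) + 1) +
      c' (lo k) * 3 ^ (k : ℕ) + c (lo k) * 3 ^ ((k : ℕ) + 1) := by
  match k, hne, hhi with
  | 0, hne, hhi =>
    change c' 1 = c 0 at hhi
    have a1 := hne 2 (by decide) (by decide)
    have a2 := hne 3 (by decide) (by decide)
    have a3 := hne 4 (by decide) (by decide)
    have a4 := hne 5 (by decide) (by decide)
    change c' 0 + 3 * c' 1 + 9 * c' 2 + 27 * c' 3 + 81 * c' 4 + 243 * c' 5 =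
      c 0 + 3 * c 1 + 9 * c 2 + 27 * c 3 + 81 * c 4 + 243 * c 5 -
        c 0 * 3 ^ 0 - c 1 * 3 ^ 1 + c' 0 * 3 ^ 0 + c 0 * 3 ^ 1
    omega
  | 1, hne, hhi =>
    change c' 2 = c 1 at hhi
    have a1 := hne 0 (by decide) (by decide)
    have a2 := hne 3 (by decide) (by decide)
    have a3 := hne 4 (by decide) (by decide)
    have a4 := hne 5 (by decide) (by decide)
    change c' 0 + 3 * c' 1 + 9 * c' 2 + 27 * c' 3 + 81 * c' 4 + 243 * c' 5 =
      c 0 + 3 * c 1 + 9 * c 2 + 27 * c 3 + 81 * c 4 + 243 * c 5 -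
        c 1 * 3 ^ 1 - c 2 * 3 ^ 2 + c' 1 * 3 ^ 1 + c 1 * 3 ^ 2
    omega
  | 2, hne, hhi =>
    change c' 3 = c 2 at hhi
    have a1 := hne 0 (by decide) (by decide)
    have a2 := hne 1 (by decide) (by decide)
    have a3 := hne 4 (by decide) (by decide)
    have a4 := hne 5 (by decide) (by decide)
    change c' 0 + 3 * c' 1 + 9 * c' 2 + 27 * c' 3 + 81 * c' 4 + 243 * c' 5 =
      c 0 + 3 * c 1 + 9 * c 2 + 27 * c 3 + 81 * c 4 + 243 * c 5 -
        c 2 * 3 ^ 2 - c 3 * 3 ^ 3 + c' 2 * 3 ^ 2 + c 2 * 3 ^ 3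
    omega
  | 3, hne, hhi =>
    change c' 4 = c 3 at hhi
    have a1 := hne 0 (by decide) (by decide)
    have a2 := hne 1 (by decide) (by decide)
    have a3 := hne 2 (by decide) (by decide)
    have a4 := hne 5 (by decide) (by decide)
    change c' 0 + 3 * c' 1 + 9 * c' 2 + 27 * c' 3 + 81 * c' 4 + 243 * c' 5 =
      c 0 + 3 * c 1 + 9 * c 2 + 27 * c 3 + 81 * c 4 + 243 * c 5 -
        c 3 * 3 ^ 3 - c 4 * 3 ^ 4 + c' 3 * 3 ^ 3 + c 3 * 3 ^ 4
    omega
  | 4, hne, hhi =>
    change c' 5 = c 4 at hhi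
    have a1 := hne 0 (by decide) (by decide)
    have a2 := hne 1 (by decide) (by decide)
    have a3 := hne 2 (by decide) (by decide)
    have a4 := hne 3 (by decide) (by decide)
    change c' 0 + 3 * c' 1 + 9 * c' 2 + 27 * c' 3 + 81 * c' 4 + 243 * c' 5 =
      c 0 + 3 * c 1 + 9 * c 2 + 27 * c 3 + 81 * c 4 + 243 * c 5 -
        c 4 * 3 ^ 4 - c 5 * 3 ^ 5 + c' 4 * 3 ^ 4 + c 4 * 3 ^ 5
    omega

/-- The vector of digits of a list of six transpositions. -/
def cv (θ : FreeGroup (Fin 6) →* Perm (Fin 3)) (k : Fin 6) : ℕ := col (θ (gen k))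

/-- The code of a list of six transpositions. -/
def code (θ : FreeGroup (Fin 6) →* Perm (Fin 3)) : ℕ := codeV (cv θ)

theorem code_lt (θ : FreeGroup (Fin 6) →* Perm (Fin 3)) : code θ < 729 := by
  have h0 : cv θ 0 < 3 := col_lt _
  have h1 : cv θ 1 < 3 := col_lt _
  have h2 : cv θ 2 < 3 := col_lt _
  have h3 : cv θ 3 < 3 := col_lt _
  have h4 : cv θ 4 < 3 := col_lt _
  have h5 : cv θ 5 < 3 := col_lt _
  unfold code codeV
  omega

theorem dig_code (θ : FreeGroup (Fin 6) →* Perm (Fin 3)) (k : Fin 6) :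
    dig (code θ) k = cv θ k := by
  have h0 : cv θ 0 < 3 := col_lt _
  have h1 : cv θ 1 < 3 := col_lt _
  have h2 : cv θ 2 < 3 := col_lt _
  have h3 : cv θ 3 < 3 := col_lt _
  have h4 : cv θ 4 < 3 := col_lt _
  have h5 : cv θ 5 < 3 := col_lt _
  unfold dig code codeV
  match k with
  | 0 =>
    change _ / 3 ^ 0 % 3 = _
    omega
  | 1 =>
    change _ / 3 ^ 1 % 3 = _
    omega
  | 2 =>
    change _ / 3 ^ 2 % 3 = _
    omega
  | 3 =>
    change _ / 3 ^ 3 % 3 = _
    omega
  | 4 =>
    change _ / 3 ^ 4 % 3 = _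
    omega
  | 5 =>
    change _ / 3 ^ 5 % 3 = _
    omega

/-- The state of a fibre monodromy. -/
def cd (θ : FreeGroup (Fin 6) →* Perm (Fin 3)) : Fin 729 := ⟨code θ, code_lt θ⟩

theorem code_sigma {θ : FreeGroup (Fin 6) →* Perm (Fin 3)} (hs : ∀ k, (θ (gen k)).IsSwap)
    (k : Fin (6 - 1)) : code (act θ (sigma k)) = hurN k (code θ) := by
  have hlo : act θ (sigma k) (gen (lo k)) = θ (gen (lo k)) * θ (gen (hi k)) * (θ (gen (lo k)))⁻¹ := by
    rw [act_apply, artin_sigma, artinAut_lo, map_mul, map_mul, map_inv]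
  have hhi : act θ (sigma k) (gen (hi k)) = θ (gen (lo k)) := by
    rw [act_apply, artin_sigma, artinAut_hi]
  have hne : ∀ j, j ≠ lo k → j ≠ hi k → act θ (sigma k) (gen j) = θ (gen j) := by
    intro j h1 h2
    rw [act_apply, artin_sigma, artinAut_of_ne h1 h2]
  have hconj := col_conj (hs (lo k)) (hs (hi k))
  have d1 : dig (code θ) k = cv θ (lo k) := dig_code θ (lo k)
  have d2 : dig (code θ) (k + 1) = cv θ (hi k) := dig_code θ (hi k)
  have e1 : cv (act θ (sigma k)) (hi k) = cv θ (lo k) := by rw [cv, hhi, cv]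
  have e2 : ∀ j, j ≠ lo k → j ≠ hi k → cv (act θ (sigma k)) j = cv θ j := by
    intro j h1 h2
    rw [cv, hne j h1 h2, cv]
  have e3 : cv (act θ (sigma k)) (lo k) = (2 * cv θ (lo k) + 2 * cv θ (hi k)) % 3 := by
    rw [cv, hlo, hconj, cv, cv]
  have := codeV_update k (cv θ) (cv (act θ (sigma k))) e2 e1
  rw [e3] at this
  rw [hurN, d1, d2]
  exact this

end Cubic

end MPd28408
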