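import Pool.Agent.Lib.MP_d28408_gt.Cubic

/-!
# MP_d28408_gt : degree three, six branch points, conclusion
-/

open Equiv

namespace MPd28408

variable {N d : ℕ}

theorem IsFibreMonodromy.act {θ : FreeGroup (Fin d) →* Perm (Fin N)} (h : IsFibreMonodromy θ)
    (g : Braid d) : IsFibreMonodromy (act θ g) := by
  refine ⟨swap_act h.1 g, ?_, ?_⟩
  · intro π
    obtain ⟨w, hw⟩ := h.2.1 π
    exact ⟨artin d g⁻¹ w, by rw [act_apply, artin_inv_apply_self, hw]⟩
  · rw [act_apply, artin_total, h.2.2]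

namespace Cubic

variable {θ : FreeGroup (Fin 6) →* Perm (Fin 3)}

theorem R_act (hs : ∀ k, (θ (gen k)).IsSwap) (b : Braid 6) :
    (R b (cd θ, 0, 0)).1 = cd (act θ b) := by
  induction b using braid_induction generalizing θ with
  | h1 => rw [R_one, act_one]
  | hs k =>
    rw [R_sigma, pk_apply]
    exact Fin.ext (code_sigma hs k).symm
  | hm a b ha hb =>
    have h1 : R a (cd θ, 0, 0) = tr (R a (cd θ, 0, 0)).2 (cd (act θ a), 0, 0) := by
      rw [← ha hs]
      simp [tr]
    rw [R_mul, h1, R_tr, act_mul]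
    exact hb (swap_act hs a)
  | hi a ha =>
    have h0 := ha (swap_act hs a⁻¹)
    rw [← act_mul, inv_mul_cancel, act_one] at h0
    set z := (R a (cd (act θ a⁻¹), 0, 0)).2 with hz
    have h1 : R a (cd (act θ a⁻¹), 0, 0) = tr z (cd θ, 0, 0) := by
      rw [← h0]
      simp [tr, hz]
    have h2 : R a⁻¹ (tr z (cd θ, 0, 0)) = (cd (act θ a⁻¹), 0, 0) := by
      rw [← h1, R_inv_self]
    rw [R_tr] at h2
    exact congrArg Prod.fst h2

/-- The pair of integers attached to a braid. -/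
def chi (θ : FreeGroup (Fin 6) →* Perm (Fin 3)) (b : Braid 6) : ℤ × ℤ := (R b (cd θ, 0, 0)).2

theorem R_eq (hs : ∀ k, (θ (gen k)).IsSwap) (b : Braid 6) :
    R b (cd θ, 0, 0) = tr (chi θ b) (cd (act θ b), 0, 0) := by
  rw [← R_act hs b]
  simp [tr, chi]

theorem chi_mul (hs : ∀ k, (θ (gen k)).IsSwap) (a b : Braid 6) :
    chi θ (a * b) = chi θ a + chi (act θ a) b := by
  rw [chi, R_mul, R_eq hs a, R_tr, R_eq (swap_act hs a) b]
  simp only [tr]
  refine Prod.ext ?_ ?_
  · simp only [Prod.fst_add]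
    ring
  · simp only [Prod.snd_add]
    ring

theorem chi_one : chi θ 1 = 0 := by
  rw [chi, R_one]
  rfl

theorem chi_mul_of_mem (hs : ∀ k, (θ (gen k)).IsSwap) {a : Braid 6} (ha : a ∈ liftable θ)
    (b : Braid 6) : chi θ (a * b) = chi θ a + chi θ b := by
  rw [chi_mul hs, act_of_liftable ha]

theorem chi_inv (hs : ∀ k, (θ (gen k)).IsSwap) {a : Braid 6} (ha : a ∈ liftable θ) :
    chi θ a⁻¹ = - chi θ a := by
  have h := chi_mul_of_mem hs ha a⁻¹
  rw [mul_inv_cancel, chi_one] at h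
  rw [eq_neg_iff_add_eq_zero, add_comm, ← h]

theorem chi_conj (hs : ∀ k, (θ (gen k)).IsSwap) (g : Braid 6) {x : Braid 6}
    (hx : x ∈ liftable (act θ g)) : chi θ (g * x * g⁻¹) = chi (act θ g) x := by
  have h1 : chi θ g + chi (act θ g) g⁻¹ = 0 := by
    rw [← chi_mul hs, mul_inv_cancel, chi_one]
  rw [chi_mul hs, chi_mul hs, act_mul, act_of_liftable hx,
    add_right_comm, h1, zero_add]

theorem chi_sigma (k : Fin (6 - 1)) : chi θ (sigma k) = (c1 k (cd θ), c2 k (cd θ)) := by
  rw [chi, R_sigma, pk_apply]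
  simp

/-! ### Good states -/

theorem swap_val {π : Perm (Fin 3)} (h : π.IsSwap) (y : Fin 3) :
    ((π y : Fin 3) : ℕ) = (2 * col π + 2 * y) % 3 := by
  rcases isSwap_cases h with rfl | rfl | rfl <;> fin_cases y <;> decide

theorem swap_fix {π : Perm (Fin 3)} (h : π.IsSwap) : ∃ y, π y = y := by
  rcases isSwap_cases h with rfl | rfl | rfl
  · exact ⟨0, by decide⟩
  · exact ⟨1, by decide⟩
  · exact ⟨2, by decide⟩

theorem total_six : total 6 = gen 0 * (gen 1 * (gen 2 * (gen 3 * (gen 4 * (gen 5 * 1))))) := rfl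

theorem good_code (h : IsFibreMonodromy θ) : good (code θ) = true := by
  obtain ⟨hs, hsur, htot⟩ := h
  have d0 := dig_code θ 0
  have d1 := dig_code θ 1
  have d2 := dig_code θ 2
  have d3 := dig_code θ 3
  have d4 := dig_code θ 4
  have d5 := dig_code θ 5
  change dig (code θ) 0 = cv θ 0 at d0
  change dig (code θ) 1 = cv θ 1 at d1
  change dig (code θ) 2 = cv θ 2 at d2
  change dig (code θ) 3 = cv θ 3 at d3
  change dig (code θ) 4 = cv θ 4 at d4
  change dig (code θ) 5 = cv θ 5 at d5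
  unfold good
  rw [d0, d1, d2, d3, d4, d5]
  rw [Bool.and_eq_true]
  constructor
  · rw [beq_iff_eq]
    have h1 := congrArg (fun π : Perm (Fin 3) => ((π 0 : Fin 3) : ℕ)) htot
    rw [total_six] at h1
    simp only [map_mul, map_one, Perm.mul_apply, Perm.one_apply] at h1
    rw [swap_val (hs 0), swap_val (hs 1), swap_val (hs 2), swap_val (hs 3), swap_val (hs 4),
      swap_val (hs 5)] at h1
    change (2 * cv θ 0 + 2 * ((2 * cv θ 1 + 2 * ((2 * cv θ 2 + 2 * ((2 * cv θ 3 +
      2 * ((2 * cv θ 4 + 2 * ((2 * cv θ 5 + 2 * 0) % 3)) % 3)) % 3)) % 3)) % 3)) % 3 = 0 at h1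
    omega
  · rw [Bool.not_eq_true']
    by_contra hc
    rw [Bool.not_eq_false] at hc
    simp only [Bool.and_eq_true, beq_iff_eq] at hc
    obtain ⟨⟨⟨⟨e1, e2⟩, e3⟩, e4⟩, e5⟩ := hc
    have hall : ∀ k, θ (gen k) = θ (gen 0) := by
      intro k
      apply col_inj (hs k) (hs 0)
      change cv θ k = cv θ 0
      match k with
      | 0 => rfl
      | 1 => exact e1.symm
      | 2 => exact (e1.trans e2).symm
      | 3 => exact (e1.trans (e2.trans e3)).symm
      | 4 => exact (e1.trans (e2.trans (e3.trans e4))).symm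
      | 5 => exact (e1.trans (e2.trans (e3.trans (e4.trans e5)))).symm
    obtain ⟨y, hy⟩ := swap_fix (hs 0)
    have := (IsTrans.of_surjective hsur).const (c := fun x => x = y) (by
      intro k x
      rw [hall k]
      apply propext
      constructor
      · intro e
        apply (θ (gen 0)).injective
        rw [e, hy]
      · intro e
        rw [e, hy]) y (y + 1)
    have h2 := this.mp rfl
    revert h2
    fin_cases y <;> decide

theorem exists_base (n : ℕ) : ∀ θ : FreeGroup (Fin 6) →* Perm (Fin 3), IsFibreMonodromy θ →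
    dst (code θ) ≤ n → ∃ g, code (act θ g) = 648 := by
  induction n with
  | zero =>
    intro θ h hn
    rcases dst_step (code θ) (code_lt θ) (good_code h) with h1 | ⟨k, hk, hlt⟩
    · exact ⟨1, by rw [act_one, h1]⟩
    · omega
  | succ n ih =>
    intro θ h hn
    rcases dst_step (code θ) (code_lt θ) (good_code h) with h1 | ⟨k, hk, hlt⟩
    · exact ⟨1, by rw [act_one, h1]⟩
    · have e := code_sigma h.1 ⟨k, hk⟩
      obtain ⟨g, hg⟩ := ih (act θ (sigma ⟨k, hk⟩)) (h.act _) (by
        rw [e]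
        change dst (hurN k (code θ)) ≤ n
        omega)
      exact ⟨sigma ⟨k, hk⟩ * g, by rw [act_mul, hg]⟩

/-! ### The full twist -/

/-- Embedding of the states of the tables. -/
def emb (m : ℕ) (y : ℕ × ℕ × ℕ) (h : y.1 < 729) : St := (⟨y.1, h⟩, (y.2.1 : ℤ) - 3 * m, (y.2.2 : ℤ) - m)

theorem pk_emb (k : Fin (6 - 1)) (m : ℕ) (y : ℕ × ℕ × ℕ) (h : y.1 < 729) :
    pk k (emb m y h) = emb (m + 1) (step k y) (hur_lt k k.2 y.1 h) := by
  rw [pk_apply]
  refine Prod.ext rfl (Prod.ext ?_ ?_)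
  · simp only [emb, c1, step]
    push_cast
    ring
  · simp only [emb, c2, step]
    push_cast
    ring

theorem prod_sigma : (List.ofFn (sigma (d := 6))).prod =
    sigma (0 : Fin 5) * (sigma (1 : Fin 5) * (sigma (2 : Fin 5) * (sigma (3 : Fin 5) *
      (sigma (4 : Fin 5) * 1)))) := rfl

theorem turn_lt (y : ℕ × ℕ × ℕ) (h : y.1 < 729) : (turn y).1 < 729 :=
  hur_lt 4 (by decide) _ (hur_lt 3 (by decide) _ (hur_lt 2 (by decide) _ (hur_lt 1 (by decide) _
    (hur_lt 0 (by decide) _ h))))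

theorem R_turn (m : ℕ) (y : ℕ × ℕ × ℕ) (h : y.1 < 729) :
    R (List.ofFn (sigma (d := 6))).prod (emb m y h) = emb (m + 5) (turn y) (turn_lt y h) := by
  rw [prod_sigma, R_mul, R_mul, R_mul, R_mul, R_mul, R_one]
  have e0 : R (sigma (0 : Fin 5)) (emb m y h) = _ := (R_sigma 0 _).trans (pk_emb 0 m y h)
  rw [e0]
  have e1 := fun (m : ℕ) (y : ℕ × ℕ × ℕ) (h : y.1 < 729) =>
    (R_sigma (1 : Fin (6 - 1)) (emb m y h)).trans (pk_emb 1 m y h)
  have e2 := fun (m : ℕ) (y : ℕ × ℕ × ℕ) (h : y.1 < 729) =>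
    (R_sigma (2 : Fin (6 - 1)) (emb m y h)).trans (pk_emb 2 m y h)
  have e3 := fun (m : ℕ) (y : ℕ × ℕ × ℕ) (h : y.1 < 729) =>
    (R_sigma (3 : Fin (6 - 1)) (emb m y h)).trans (pk_emb 3 m y h)
  have e4 := fun (m : ℕ) (y : ℕ × ℕ × ℕ) (h : y.1 < 729) =>
    (R_sigma (4 : Fin (6 - 1)) (emb m y h)).trans (pk_emb 4 m y h)
  erw [e1, e2, e3, e4]
  rfl

theorem chi_full (h : IsFibreMonodromy θ) : chi θ (fullTwist 6) = (12, 0) := by
  have hv := val_full (code θ) (code_lt θ) (good_code h)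
  have h0 : ((cd θ, 0, 0) : St) = emb 0 (code θ, 0, 0) (code_lt θ) := by
    refine Prod.ext rfl (Prod.ext ?_ ?_) <;> simp [emb]
  have h6 : R (fullTwist 6) (cd θ, 0, 0) =
      emb 30 (turn (turn (turn (turn (turn (turn (code θ, 0, 0)))))))
        (turn_lt _ (turn_lt _ (turn_lt _ (turn_lt _ (turn_lt _ (turn_lt _ (code_lt θ))))))) := by
    rw [fullTwist, h0]
    rw [pow_succ, R_mul, pow_succ, R_mul, pow_succ, R_mul, pow_succ, R_mul, pow_succ, R_mul,
      pow_one, R_turn, R_turn, R_turn, R_turn, R_turn, R_turn]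
  rw [chi, h6]
  simp only [emb, hv]
  norm_num

/-! ### Values at the factors -/

theorem val_half (h : IsFibreMonodromy θ) {k : Fin (6 - 1)} {n : ℕ} (hn : n = 1 ∨ n = 2 ∨ n = 3)
    (hl : sigma k ^ n ∈ liftable θ) :
    ∃ a m0 m1 : ℕ, chi θ (sigma k ^ n) = ((a : ℤ) + 12 * m0, (m0 : ℤ) - m1) := by
  have hk : (k : ℕ) < 5 := k.2
  have d1 : dig (code θ) k = cv θ (lo k) := dig_code θ (lo k)
  have d2 : dig (code θ) (k + 1) = cv θ (hi k) := dig_code θ (hi k)
  by_cases he : θ (gen (lo k)) = θ (gen (hi k))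
  · have hmem : sigma k ∈ liftable θ := by
      obtain ⟨s, t, -, hst⟩ := h.1 (lo k)
      exact sigma_liftable hst (by rw [← he, hst])
    have hpow : ∀ n : ℕ, chi θ (sigma k ^ n) = ((n : ℤ) * c1 k (cd θ), (n : ℤ) * c2 k (cd θ)) := by
      intro n
      induction n with
      | zero =>
        rw [pow_zero, chi_one]
        refine Prod.ext ?_ ?_ <;> simp
      | succ n ih =>
        rw [pow_succ', chi_mul_of_mem h.1 hmem, ih, chi_sigma]
        refine Prod.ext ?_ ?_
        · simp only [Prod.mk_add_mk]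
          push_cast
          ring
        · simp only [Prod.mk_add_mk]
          push_cast
          ring
    have hdig : dig (code θ) k = dig (code θ) (k + 1) := by
      rw [d1, d2, cv, cv, he]
    have hv := val_eq k hk (code θ) (code_lt θ) (by
      rw [Bool.and_eq_true, beq_iff_eq]
      exact ⟨good_code h, hdig⟩)
    rw [List.contains_iff_mem] at hv
    simp only [List.mem_cons, Prod.mk.injEq, List.not_mem_nil, or_false] at hv
    rw [hpow n]
    simp only [c1, c2, cd]
    rcases hv with ⟨v1, v2⟩ | ⟨v1, v2⟩ | ⟨v1, v2⟩ | ⟨v1, v2⟩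
    · exact ⟨n, 0, 0, by rw [v1, v2]; norm_num⟩
    · refine ⟨0, n, 0, ?_⟩
      rw [v1, v2]
      refine Prod.ext ?_ ?_
      · push_cast; ring
      · push_cast; ring
    · refine ⟨0, 0, n, ?_⟩
      rw [v1, v2]
      refine Prod.ext ?_ ?_
      · push_cast; ring
      · push_cast; ring
    · exact ⟨0, 0, 0, by rw [v1, v2]; norm_num⟩
  · have hdig : dig (code θ) k ≠ dig (code θ) (k + 1) := by
      rw [d1, d2]
      intro hc
      exact he (col_inj (h.1 _) (h.1 _) hc)
    obtain ⟨w1, w2, w3, w4⟩ := val_ne k hk (code θ) (code_lt θ) ⟨good_code h, hdig⟩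
    have a1 : code (act θ (sigma k)) = hurN k (code θ) := code_sigma h.1 k
    have a2 : code (act θ (sigma k ^ 2)) = hurN k (hurN k (code θ)) := by
      rw [pow_two, act_mul, code_sigma (swap_act h.1 _), a1]
    rcases hn with rfl | rfl | rfl
    · exfalso
      apply w1
      rw [← a1, ← pow_one (sigma k), act_of_liftable hl]
    · exfalso
      apply w2
      rw [← a2, act_of_liftable hl]
    · refine ⟨0, 0, 0, ?_⟩
      have h3 : sigma k ^ 3 = sigma k * (sigma k * sigma k) := by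
        rw [pow_succ, pow_two, mul_assoc]
      rw [h3, chi_mul h.1, chi_mul (swap_act h.1 _), chi_sigma, chi_sigma, chi_sigma]
      have b1 : (cd (act θ (sigma k)) : ℕ) = hurN k (code θ) := a1
      have b2 : (cd (act (act θ (sigma k)) (sigma k)) : ℕ) = hurN k (hurN k (code θ)) := by
        rw [← act_mul, ← pow_two]
        exact a2
      simp only [c1, c2, b1, b2]
      have b0 : (cd θ : ℕ) = code θ := rfl
      rw [b0]
      refine Prod.ext ?_ ?_
      · simp only [Prod.mk_add_mk]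
        push_cast [← @Nat.cast_inj ℤ] at w3
        push_cast
        linarith
      · simp only [Prod.mk_add_mk]
        push_cast [← @Nat.cast_inj ℤ] at w4
        push_cast
        linarith

theorem list_chi {β : Type*} (f : β → ℤ × ℤ) (l : List β)
    (h : ∀ b ∈ l, ∃ a m0 m1 : ℕ, f b = ((a : ℤ) + 12 * m0, (m0 : ℤ) - m1)) :
    ∃ a m0 m1 : ℕ, (l.map f).sum = ((a : ℤ) + 12 * m0, (m0 : ℤ) - m1) ∧
      (m0 = 0 → m1 = 0 → ∀ b ∈ l, (f b).2 = 0) ∧ (a = 0 → ∀ b ∈ l, (12 : ℤ) ∣ (f b).1) := by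
  induction l with
  | nil => exact ⟨0, 0, 0, by refine Prod.ext ?_ ?_ <;> simp, by simp, by simp⟩
  | cons x l ih =>
    obtain ⟨a, m0, m1, e, h1, h2⟩ := ih fun b hb => h b (by simp [hb])
    obtain ⟨a', m0', m1', e'⟩ := h x (by simp)
    refine ⟨a' + a, m0' + m0, m1' + m1, ?_, ?_, ?_⟩
    · rw [List.map_cons, List.sum_cons, e, e']
      refine Prod.ext ?_ ?_
      · simp only [Prod.mk_add_mk]
        push_cast
        ring
      · simp only [Prod.mk_add_mk]
        push_cast
        ring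
    · intro h0 h0' b hb
      rw [List.mem_cons] at hb
      rcases hb with rfl | hb
      · rw [e']
        have : m0' = 0 := by omega
        have : m1' = 0 := by omega
        simp [*]
      · exact h1 (by omega) (by omega) b hb
    · intro h0 b hb
      rw [List.mem_cons] at hb
      rcases hb with rfl | hb
      · rw [e']
        have : a' = 0 := by omega
        rw [this]
        simp
      · exact h2 (by omega) b hb

theorem chi_list (hs : ∀ k, (θ (gen k)).IsSwap) (ρ : List (Braid 6))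
    (hρ : ∀ b ∈ ρ, b ∈ liftable θ) : (ρ.map (chi θ)).sum = chi θ ρ.prod := by
  induction ρ with
  | nil => rw [List.prod_nil, chi_one]; rfl
  | cons b ρ ih =>
    rw [List.prod_cons, List.map_cons, List.sum_cons, ih fun x hx => hρ x (by simp [hx]),
      chi_mul_of_mem hs (hρ b (by simp))]

/-- The cubic case. -/
theorem cubic_main (h : IsFibreMonodromy θ) {ρ : List (Braid 6)} (hρ : IsFactorization θ ρ) :
    Subgroup.closure {b | b ∈ ρ} ≠ liftable θ := by
  intro hcl
  obtain ⟨hprod, hρ⟩ := hρ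
  have hs := h.1
  have hl : ∀ b ∈ ρ, b ∈ liftable θ := fun b hb => (hρ b hb).1
  obtain ⟨a, m0, m1, hsum, hA, hB⟩ := list_chi (chi θ) ρ (by
    intro b hb
    obtain ⟨hbl, x, ⟨g, k, rfl⟩, hx⟩ := hρ b hb
    obtain ⟨n, hn, hbn⟩ : ∃ n : ℕ, (n = 1 ∨ n = 2 ∨ n = 3) ∧ b = g * sigma k ^ n * g⁻¹ := by
      rcases hx with hx | hx | hx
      · exact ⟨1, Or.inl rfl, by rw [hx, pow_one]⟩
      · exact ⟨2, Or.inr (Or.inl rfl), by rw [hx, conj_pow]⟩
      · exact ⟨3, Or.inr (Or.inr rfl), by rw [hx, conj_pow]⟩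
    have hn' : sigma k ^ n ∈ liftable (act θ g) := by
      rw [liftable_act, ← hbn]
      exact hbl
    obtain ⟨a, m0, m1, e⟩ := val_half (h.act g) hn hn'
    exact ⟨a, m0, m1, by rw [hbn, chi_conj hs g hn', e]⟩)
  rw [chi_list hs ρ hl, hprod, chi_full h] at hsum
  have e1 : (12 : ℤ) = a + 12 * m0 := congrArg Prod.fst hsum
  have e2 : (0 : ℤ) = m0 - m1 := congrArg Prod.snd hsum
  have hcase : (m0 = 0 ∧ m1 = 0) ∨ a = 0 := by omega
  -- two elements
  obtain ⟨g, hg⟩ := exists_base _ θ h le_rfl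
  have hg' := h.act g
  obtain ⟨b0, b1, b2, b3, b4, b5, b6, b7⟩ := base_vals
  have c0 : cv (act θ g) 0 = 0 := by
    rw [← dig_code, hg]; exact b0
  have c1' : cv (act θ g) 1 = 0 := by
    rw [← dig_code, hg]; exact b1
  have c4 : cv (act θ g) 4 = 2 := by
    rw [← dig_code, hg]; exact b2
  have c5 : cv (act θ g) 5 = 2 := by
    rw [← dig_code, hg]; exact b3
  have g01 : act θ g (gen 0) = act θ g (gen 1) :=
    col_inj (hg'.1 0) (hg'.1 1) (c0.trans c1'.symm)
  have g45 : act θ g (gen 4) = act θ g (gen 5) :=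
    col_inj (hg'.1 4) (hg'.1 5) (c4.trans c5.symm)
  have hx : sigma (0 : Fin (6 - 1)) ∈ liftable (act θ g) := by
    obtain ⟨s, t, -, hst⟩ := hg'.1 0
    exact sigma_liftable (k := 0) hst (by
      change act θ g (gen 1) = _
      rw [← g01, hst])
  have hy : sigma (4 : Fin (6 - 1)) ∈ liftable (act θ g) := by
    obtain ⟨s, t, -, hst⟩ := hg'.1 4
    exact sigma_liftable (k := 4) hst (by
      change act θ g (gen 5) = _
      rw [← g45, hst])
  have vx : chi θ (g * sigma 0 * g⁻¹) = (1, 0) := by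
    rw [chi_conj hs g hx, chi_sigma]
    simp only [c1, c2, cd, hg]
    change ((t1 0 648 : ℤ) - 3, (t2 0 648 : ℤ) - 1) = (1, 0)
    rw [b4, b5]
    norm_num
  have vy : chi θ (g * sigma 4 * g⁻¹) = (12, 1) := by
    rw [chi_conj hs g hy, chi_sigma]
    simp only [c1, c2, cd, hg]
    change ((t1 4 648 : ℤ) - 3, (t2 4 648 : ℤ) - 1) = (12, 1)
    rw [b6, b7]
    norm_num
  have mx : g * sigma 0 * g⁻¹ ∈ Subgroup.closure {b | b ∈ ρ} := by
    rw [hcl]; exact liftable_act.1 hx
  have my : g * sigma 4 * g⁻¹ ∈ Subgroup.closure {b | b ∈ ρ} := by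
    rw [hcl]; exact liftable_act.1 hy
  have hin : ∀ b ∈ Subgroup.closure {b | b ∈ ρ}, b ∈ liftable θ := by
    intro b hb
    rw [← hcl]; exact hb
  rcases hcase with ⟨z0, z1⟩ | z0
  · have key : ∀ b ∈ Subgroup.closure {b | b ∈ ρ}, (chi θ b).2 = 0 := by
      intro b hb
      induction hb using Subgroup.closure_induction with
      | mem x hx => exact hA z0 z1 x hx
      | one => rw [chi_one]; rfl
      | mul x y hx' hy' hx hy =>
        rw [chi_mul_of_mem hs (hin x hx'), Prod.snd_add, hx, hy, add_zero]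
      | inv x hx' hx => rw [chi_inv hs (hin x hx'), Prod.snd_neg, hx, neg_zero]
    have := key _ my
    rw [vy] at this
    exact one_ne_zero this
  · have key : ∀ b ∈ Subgroup.closure {b | b ∈ ρ}, (12 : ℤ) ∣ (chi θ b).1 := by
      intro b hb
      induction hb using Subgroup.closure_induction with
      | mem x hx => exact hB z0 x hx
      | one => rw [chi_one]; exact dvd_zero _
      | mul x y hx' hy' hx hy =>
        rw [chi_mul_of_mem hs (hin x hx'), Prod.fst_add]
        exact dvd_add hx hy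
      | inv x hx' hx =>
        rw [chi_inv hs (hin x hx'), Prod.fst_neg]
        exact hx.neg_right
    have := key _ mx
    rw [vx] at this
    change (12 : ℤ) ∣ 1 at this
    omega

end Cubic

end MPd28408
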