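import Pool.Agent.Lib.MP_d28408_gt.Cocycle

/-!
# MP_d28408_gt : the homomorphisms `q i j` of the liftable braid group in the planar case

For a planar fibre monodromy `θ` (`d = 2 N - 2`) and two sheets `i, j` there is a homomorphism
`q i j : liftable θ → ℚ`. A power of a half-twist with nonzero image determines a partition of the
sheets in two classes, and `q i j` is a multiple of the indicator of `i, j` being separated.
-/

open Equiv

namespace MPd28408

variable {N d : ℕ}

/-- Planar fibre monodromies. -/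
structure Planar (θ : FreeGroup (Fin d) →* Perm (Fin N)) : Prop where
  swap : ∀ k, (θ (gen k)).IsSwap
  trans : IsTrans θ
  total : θ (total d) = 1
  pos : 0 < N
  count : d + 2 = 2 * N

/-- The right action of braids on fibre monodromies. -/
def act {G : Type*} [Group G] (θ : FreeGroup (Fin d) →* G) (b : Braid d) : FreeGroup (Fin d) →* G :=
  θ.comp (artin d b).toMonoidHom

theorem act_apply {G : Type*} [Group G] (θ : FreeGroup (Fin d) →* G) (b : Braid d)
    (w : FreeGroup (Fin d)) : act θ b w = θ (artin d b w) := rfl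

theorem act_of_liftable {G : Type*} [Group G] {θ : FreeGroup (Fin d) →* G} {b : Braid d}
    (hb : b ∈ liftable θ) : act θ b = θ := MonoidHom.ext fun w => hb w

theorem artin_mul_apply (a b : Braid d) (w : FreeGroup (Fin d)) :
    artin d (a * b) w = artin d a (artin d b w) := by
  rw [map_mul, MulAut.mul_apply]

theorem artin_inv_apply_self (b : Braid d) (w : FreeGroup (Fin d)) :
    artin d b (artin d b⁻¹ w) = w := by
  rw [← artin_mul_apply, mul_inv_cancel, map_one, MulAut.one_apply]

theorem artin_apply_inv_self (b : Braid d) (w : FreeGroup (Fin d)) :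
    artin d b⁻¹ (artin d b w) = w := by
  rw [← artin_mul_apply, inv_mul_cancel, map_one, MulAut.one_apply]

variable {θ : FreeGroup (Fin d) →* Perm (Fin N)} {δ δ' : FreeGroup (Fin d) → Fin N → ℚ}

theorem swap_conj (π : Perm (Fin N)) {τ : Perm (Fin N)} (h : τ.IsSwap) : (π * τ * π⁻¹).IsSwap := by
  obtain ⟨s, t, hst, rfl⟩ := h
  refine ⟨π s, π t, fun h => hst (π.injective h), ?_⟩
  rw [← Equiv.swap_apply_apply]

theorem swap_act (hs : ∀ k, (θ (gen k)).IsSwap) (b : Braid d) (k : Fin d) :
    (act θ b (gen k)).IsSwap := by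
  obtain ⟨w, j, h⟩ := (artin_conj b).1 k
  rw [act_apply, h, map_mul, map_mul, map_inv]
  exact swap_conj _ (hs j)

theorem Planar.act (h : Planar θ) (b : Braid d) : Planar (act θ b) where
  swap := swap_act h.swap b
  trans := by
    intro i j
    obtain ⟨w, hw⟩ := h.trans i j
    exact ⟨artin d b⁻¹ w, by rw [act_apply, artin_inv_apply_self, hw]⟩
  total := by rw [act_apply, artin_total, h.total]
  pos := h.pos
  count := h.count

theorem pull_mem (hs : ∀ k, (θ (gen k)).IsSwap) (b : Braid d) (hδ : δ ∈ Lsp θ) :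
    (fun w => δ (artin d b w)) ∈ Lsp (act θ b) := by
  refine ⟨fun w w' j => ?_, fun k => ?_⟩
  · change δ (artin d b (w * w')) j = δ (artin d b w) j + δ (artin d b w') ((act θ b w).symm j)
    rw [map_mul, Lsp_mul hδ]
    rfl
  · obtain ⟨w, l, h⟩ := (artin_conj b).1 k
    funext j
    change δ (artin d b (gen k * gen k)) j = (0 : Fin N → ℚ) j
    rw [map_mul, h, show w * gen l * w⁻¹ * (w * gen l * w⁻¹) = w * ((gen l * gen l) * w⁻¹) by group,
      Lsp_mul hδ, Lsp_mul hδ, Lsp_sq hδ, swap_sq hs, Lsp_inv hδ, Pi.zero_apply, zero_add]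
    change δ w j + - δ w (θ w ((θ w).symm j)) = 0
    rw [Equiv.apply_symm_apply]
    ring

theorem exists_u (h : Planar θ) {b : Braid d} (hb : b ∈ liftable θ) (hδ : δ ∈ Lsp θ) :
    ∃ u, ∀ w, δ (artin d b w) = δ w + cob θ u w := by
  have h1 := pull_mem h.swap b hδ
  rw [act_of_liftable hb] at h1
  obtain ⟨u, hu⟩ := planar_coboundary h.swap h.trans h.total h.pos h.count (sub_mem h1 hδ) (by
    rw [Pi.sub_apply, artin_total, sub_self])
  refine ⟨u, fun w => ?_⟩
  rw [← hu, Pi.sub_apply]
  exact (add_sub_cancel _ _).symm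

theorem exists_delta (h : Planar θ) (i j : Fin N) :
    ∃ δ ∈ Lsp θ, δ (total d) = Pi.single i 1 - Pi.single j 1 := rel_all h.swap h.trans i j

/-- The crossed homomorphism chosen for the sheets `i`, `j`. -/
noncomputable def dl (h : Planar θ) (i j : Fin N) : FreeGroup (Fin d) → Fin N → ℚ :=
  Classical.choose (exists_delta h i j)

theorem dl_mem (h : Planar θ) (i j : Fin N) : dl h i j ∈ Lsp θ :=
  (Classical.choose_spec (exists_delta h i j)).1

theorem dl_total (h : Planar θ) (i j : Fin N) :
    dl h i j (total d) = Pi.single i 1 - Pi.single j 1 :=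
  (Classical.choose_spec (exists_delta h i j)).2

/-- A word sending the sheet `i` to `j`. -/
noncomputable def wd (h : Planar θ) (i j : Fin N) : FreeGroup (Fin d) :=
  Classical.choose (h.trans i j)

theorem wd_spec (h : Planar θ) (i j : Fin N) : θ (wd h i j) i = j :=
  Classical.choose_spec (h.trans i j)

/-- The value of the invariant for the sheets `i`, `j` at the braid `b`. -/
noncomputable def q (h : Planar θ) (i j : Fin N) (b : Braid d) : ℚ :=
  dl h i j (wd h i j) j - dl h i j (artin d b (wd h i j)) j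

theorem q_eq (h : Planar θ) {i j : Fin N} {b : Braid d} {u : Fin N → ℚ}
    (hu : ∀ w, dl h i j (artin d b w) = dl h i j w + cob θ u w) : q h i j b = u j - u i := by
  rw [q, hu, Pi.add_apply, cob_apply]
  have : (θ (wd h i j)).symm j = i := by
    rw [Equiv.symm_apply_eq, wd_spec]
  rw [this]
  ring

theorem cob_artin {b : Braid d} (hb : b ∈ liftable θ) (u : Fin N → ℚ) (w : FreeGroup (Fin d)) :
    cob θ u (artin d b w) = cob θ u w := by
  funext j
  rw [cob_apply, cob_apply, hb w]

theorem q_mul (h : Planar θ) (i j : Fin N) {a b : Braid d} (ha : a ∈ liftable θ)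
    (hb : b ∈ liftable θ) : q h i j (a * b) = q h i j a + q h i j b := by
  obtain ⟨u, hu⟩ := exists_u h ha (dl_mem h i j)
  obtain ⟨v, hv⟩ := exists_u h hb (dl_mem h i j)
  rw [q_eq h hu, q_eq h hv, q_eq h (u := u + v)]
  · simp only [Pi.add_apply]
    ring
  · intro w
    rw [artin_mul_apply, hu, hv, cob_artin hb, map_add, Pi.add_apply]
    abel

theorem q_one (h : Planar θ) (i j : Fin N) : q h i j 1 = 0 := by
  rw [q, map_one, MulAut.one_apply, sub_self]

theorem q_inv (h : Planar θ) (i j : Fin N) {a : Braid d} (ha : a ∈ liftable θ) :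
    q h i j a⁻¹ = - q h i j a := by
  have := q_mul h i j ha (inv_mem ha)
  rw [mul_inv_cancel, q_one] at this
  linarith

/-- The value at the full twist. -/
theorem q_fullTwist (h : Planar θ) {i j : Fin N} (hij : i ≠ j) : q h i j (fullTwist d) = 2 := by
  have hd : 0 < d := by
    have h1 := h.count
    have h2 : 2 ≤ N := by
      by_contra hc
      apply hij
      apply Fin.ext
      omega
    omega
  rw [q_eq h (u := - (Pi.single i 1 - Pi.single j 1))]
  · rw [Pi.neg_apply, Pi.neg_apply, Pi.sub_apply, Pi.sub_apply, Pi.single_eq_same,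
      Pi.single_eq_same, Pi.single_eq_of_ne hij, Pi.single_eq_of_ne hij.symm]
    norm_num
  · intro w
    funext x
    have hm := dl_mem h i j
    rw [artin_fullTwist hd, Lsp_mul hm, Lsp_mul hm, symm_mul, h.total, Lsp_inv hm, h.total,
      dl_total, Pi.add_apply, cob_apply]
    change (Pi.single i 1 - Pi.single j 1 : Fin N → ℚ) x + dl h i j w x
      + - (Pi.single i 1 - Pi.single j 1 : Fin N → ℚ) ((θ w).symm x) = _
    rw [Pi.neg_apply, Pi.neg_apply]
    ring

/-! ### Transport along the action -/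

theorem transport (g b' : Braid d) {u : Fin N → ℚ}
    (hu : ∀ w, δ (artin d g (artin d b' w)) = δ (artin d g w) + cob (act θ g) u w)
    (w : FreeGroup (Fin d)) : δ (artin d (g * b' * g⁻¹) w) = δ w + cob θ u w := by
  rw [artin_mul_apply, artin_mul_apply, hu, artin_inv_apply_self]
  congr 1
  funext j
  rw [cob_apply, cob_apply, act_apply, artin_inv_apply_self]

theorem liftable_act {g b' : Braid d} :
    b' ∈ liftable (act θ g) ↔ g * b' * g⁻¹ ∈ liftable θ := by
  constructor
  · intro h w
    have := h (artin d g⁻¹ w)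
    rw [act_apply, act_apply, artin_inv_apply_self] at this
    rw [artin_mul_apply, artin_mul_apply, this]
  · intro h w
    have := h (artin d g w)
    rw [artin_mul_apply, artin_mul_apply, artin_apply_inv_self] at this
    rw [act_apply, act_apply, this]

/-! ### Powers of a generator: different transpositions -/

theorem exists_gauge {s t s' t' : Fin N} (hst : s ≠ t) (hst' : s' ≠ t') (h1 : t' ≠ s) (h2 : t' ≠ t)
    (m m' : ℚ) : ∃ u : Fin N → ℚ, u t - u s = m ∧ u t' - u s' = m' := by
  refine ⟨fun x => if x = t' then m' + (if s' = t then m else 0) else if x = t then m else 0, ?_, ?_⟩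
  · simp only [if_neg h2.symm, if_neg h1.symm, if_true, if_neg hst, sub_zero]
  · simp only [if_true, if_neg hst']
    ring

theorem exists_gauge' {s t s' t' : Fin N} (hst : s ≠ t) (hst' : s' ≠ t')
    (hne : swap s t ≠ swap s' t')
    (m m' : ℚ) : ∃ u : Fin N → ℚ, u t - u s = m ∧ u t' - u s' = m' := by
  by_cases h1 : t' = s
  · by_cases h2 : s' = t
    · exfalso
      apply hne
      rw [h1, h2, Equiv.swap_comm]
    · have h3 : s' ≠ s := by rw [← h1]; exact hst'
      obtain ⟨u, hu1, hu2⟩ := exists_gauge hst hst'.symm h3 h2 m (-m')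
      exact ⟨u, hu1, by linarith⟩
  · by_cases h2 : t' = t
    · by_cases h3 : s' = s
      · exfalso
        apply hne
        rw [h2, h3]
      · have h4 : s' ≠ t := by rw [← h2]; exact hst'
        obtain ⟨u, hu1, hu2⟩ := exists_gauge hst hst'.symm h3 h4 m (-m')
        exact ⟨u, hu1, by linarith⟩
    · exact exists_gauge hst hst' h1 h2 m m'

theorem cob_gen {u : Fin N → ℚ} {k : Fin d} {s t : Fin N} (hk : θ (gen k) = swap s t)
    (hδ : δ ∈ Lsp θ) (hu : u t - u s = δ (gen k) s) : δ (gen k) = cob θ u (gen k) := by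
  funext j
  rw [Lsp_swap hδ hk, cob_apply, hk, Equiv.symm_swap]
  by_cases h1 : j = s
  · rw [if_pos h1, h1, Equiv.swap_apply_left, hu]
  · rw [if_neg h1]
    by_cases h2 : j = t
    · rw [if_pos h2, h2, Equiv.swap_apply_right, ← hu]
      ring
    · rw [if_neg h2, Equiv.swap_apply_of_ne_of_ne h1 h2, sub_self]

theorem artin_pow_closure (k : Fin (d - 1)) (n : ℕ) {w : FreeGroup (Fin d)}
    (hw : w ∈ Subgroup.closure {gen (lo k), gen (hi k)}) :
    artin d (sigma k ^ n) w ∈ Subgroup.closure {gen (lo k), gen (hi k)} := by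
  have hlo : gen (lo k) ∈ Subgroup.closure {gen (lo k), gen (hi k)} :=
    Subgroup.subset_closure (by simp)
  have hhi : gen (hi k) ∈ Subgroup.closure {gen (lo k), gen (hi k)} :=
    Subgroup.subset_closure (by simp)
  have h1 : ∀ w ∈ Subgroup.closure {gen (lo k), gen (hi k)},
      artinAut k w ∈ Subgroup.closure {gen (lo k), gen (hi k)} := by
    intro w hw
    induction hw using Subgroup.closure_induction with
    | mem x hx =>
      rcases hx with rfl | hx
      · rw [artinAut_lo]
        exact mul_mem (mul_mem hlo hhi) (inv_mem hlo)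
      · rw [Set.mem_singleton_iff] at hx
        subst hx
        rw [artinAut_hi]
        exact hlo
    | one => rw [map_one]; exact one_mem _
    | mul x y _ _ hx hy => rw [map_mul]; exact mul_mem hx hy
    | inv x _ hx => rw [map_inv]; exact inv_mem hx
  induction n generalizing w with
  | zero => rw [pow_zero, map_one, MulAut.one_apply]; exact hw
  | succ n ih =>
    rw [pow_succ, artin_mul_apply, artin_sigma]
    exact ih (h1 w hw)

theorem artin_pow_of_ne (k : Fin (d - 1)) (n : ℕ) {j : Fin d} (h1 : j ≠ lo k) (h2 : j ≠ hi k) :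
    artin d (sigma k ^ n) (gen j) = gen j := by
  induction n with
  | zero => rw [pow_zero, map_one, MulAut.one_apply]
  | succ n ih => rw [pow_succ, artin_mul_apply, artin_sigma, artinAut_of_ne h1 h2, ih]

theorem pow_of_ne (h : Planar θ) {k : Fin (d - 1)} (hne : θ (gen (lo k)) ≠ θ (gen (hi k)))
    {n : ℕ} (hn : sigma k ^ n ∈ liftable θ) (hδ : δ ∈ Lsp θ) (w : FreeGroup (Fin d)) :
    δ (artin d (sigma k ^ n) w) = δ w := by
  obtain ⟨s, t, hst, hk⟩ := h.swap (lo k)
  obtain ⟨s', t', hst', hk'⟩ := h.swap (hi k)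
  obtain ⟨u, hu1, hu2⟩ := exists_gauge' hst hst' (by rw [← hk, ← hk']; exact hne)
    (δ (gen (lo k)) s) (δ (gen (hi k)) s')
  have hc := cob_mem (swap_sq h.swap) u
  have hcl : ∀ w ∈ Subgroup.closure {gen (lo k), gen (hi k)}, δ w = cob θ u w := by
    intro w hw
    induction hw using Subgroup.closure_induction with
    | mem x hx =>
      rcases hx with rfl | hx
      · exact cob_gen hk hδ hu1
      · rw [Set.mem_singleton_iff] at hx
        subst hx
        exact cob_gen hk' hδ hu2
    | one => rw [Lsp_one hδ, Lsp_one hc]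
    | mul x y _ _ hx hy =>
      funext j
      rw [Lsp_mul hδ, Lsp_mul hc, hx, hy]
    | inv x _ hx =>
      funext j
      rw [Lsp_inv hδ, Lsp_inv hc, hx]
  have h1 := pull_mem h.swap (sigma k ^ n) hδ
  rw [act_of_liftable hn] at h1
  refine congrFun (Lsp_ext h1 hδ fun j => ?_) w
  have hloc : ∀ x ∈ Subgroup.closure {gen (lo k), gen (hi k)},
      δ (artin d (sigma k ^ n) x) = δ x := by
    intro x hx
    rw [hcl _ (artin_pow_closure k n hx), cob_artin hn, hcl x hx]
  by_cases e1 : j = lo k
  · subst e1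
    exact hloc _ (Subgroup.subset_closure (by simp))
  · by_cases e2 : j = hi k
    · subst e2
      exact hloc _ (Subgroup.subset_closure (by simp))
    · change δ (artin d (sigma k ^ n) (gen j)) = δ (gen j)
      rw [artin_pow_of_ne k n e1 e2]

/-! ### Powers of a generator: equal transpositions -/

theorem sigma_liftable {k : Fin (d - 1)} {s t : Fin N} (hk : θ (gen (lo k)) = swap s t)
    (hk' : θ (gen (hi k)) = swap s t) : sigma k ∈ liftable θ := by
  have : act θ (sigma k) = θ := by
    apply FreeGroup.ext_hom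
    intro j
    change act θ (sigma k) (gen j) = θ (gen j)
    rw [act_apply, artin_sigma]
    by_cases h1 : j = lo k
    · subst h1
      rw [artinAut_lo, map_mul, map_mul, map_inv, hk, hk', Equiv.swap_mul_self, one_mul,
        Equiv.swap_inv]
    · by_cases h2 : j = hi k
      · subst h2
        rw [artinAut_hi, hk, hk']
      · rw [artinAut_of_ne h1 h2]
  intro w
  exact DFunLike.congr_fun this w

theorem sum_gen {k : Fin d} {s t : Fin N} (hk : θ (gen k) = swap s t) (hst : s ≠ t)
    (hδ : δ ∈ Lsp θ) (g : Fin N → ℚ) :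
    ∑ y, g y * δ (gen k) y = δ (gen k) s * (g s - g t) := by
  have h1 : ∀ y, g y * δ (gen k) y =
      (if y = s then g s * δ (gen k) s else 0) + (if y = t then - (g t * δ (gen k) s) else 0) := by
    intro y
    by_cases h1 : y = s
    · subst h1
      rw [if_pos rfl, if_neg hst, add_zero]
    · by_cases h2 : y = t
      · subst h2
        rw [Lsp_swap hδ hk y, if_neg h1, if_pos rfl, if_neg h1, if_pos rfl]
        ring
      · rw [Lsp_swap hδ hk y, if_neg h1, if_neg h2, if_neg h1, if_neg h2]
        ring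
  rw [Finset.sum_congr rfl fun y _ => h1 y, Finset.sum_add_distrib, Finset.sum_ite_eq',
    Finset.sum_ite_eq', if_pos (Finset.mem_univ _), if_pos (Finset.mem_univ _)]
  ring

theorem sum_step {n : ℕ} (hn : n < d) (hδ : δ ∈ Lsp θ) (c : Fin N → ℚ) :
    ∑ x, c x * δ (pre d (n + 1)) x =
      ∑ x, c x * δ (pre d n) x + ∑ y, c (θ (pre d n) y) * δ (gen ⟨n, hn⟩) y := by
  rw [← Equiv.sum_comp (θ (pre d n)).symm (fun y => c (θ (pre d n) y) * δ (gen ⟨n, hn⟩) y),
    ← Finset.sum_add_distrib]
  refine Finset.sum_congr rfl fun x _ => ?_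
  rw [pre_succ hn, Lsp_mul hδ, Equiv.apply_symm_apply]
  ring

theorem sum_total (hs : ∀ k, (θ (gen k)).IsSwap) {k : Fin (d - 1)} {s t : Fin N}
    (hst : s ≠ t) (hk : θ (gen (lo k)) = swap s t) (hk' : θ (gen (hi k)) = swap s t)
    (hδ : δ ∈ Lsp θ) {c : Fin N → ℚ} (hcs : c s = 1) (hct : c t = 0)
    (hc : ∀ l, l ≠ lo k → l ≠ hi k → ∀ x, c (θ (gen l) x) = c x) :
    ∑ x, c x * δ (total d) x = δ (gen (lo k)) s - δ (gen (hi k)) s := by
  have hzero : ∀ l, l ≠ lo k → l ≠ hi k → ∑ y, c y * δ (gen l) y = 0 := by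
    intro l h1 h2
    obtain ⟨s', t', hst', hl⟩ := hs l
    rw [sum_gen hl hst' hδ]
    have := hc l h1 h2 s'
    rw [hl, Equiv.swap_apply_left] at this
    rw [this, sub_self, mul_zero]
  have hlok : ∀ n (hn : n < d), n < (k : ℕ) → (⟨n, hn⟩ : Fin d) ≠ lo k ∧ (⟨n, hn⟩ : Fin d) ≠ hi k := by
    intro n hn hnk
    refine ⟨fun h => ?_, fun h => ?_⟩
    · have := congrArg Fin.val h
      simp only [lo] at this
      omega
    · have := congrArg Fin.val h
      simp only [hi] at this
      omega
  have hhik : ∀ n (hn : n < d), (k : ℕ) + 2 ≤ n →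
      (⟨n, hn⟩ : Fin d) ≠ lo k ∧ (⟨n, hn⟩ : Fin d) ≠ hi k := by
    intro n hn hnk
    refine ⟨fun h => ?_, fun h => ?_⟩
    · have := congrArg Fin.val h
      simp only [lo] at this
      omega
    · have := congrArg Fin.val h
      simp only [hi] at this
      omega
  have hA : ∀ n, n ≤ (k : ℕ) → (∑ x, c x * δ (pre d n) x = 0) ∧ ∀ x, c (θ (pre d n) x) = c x := by
    intro n hn
    induction n with
    | zero =>
      rw [pre_zero, Lsp_one hδ, map_one]
      exact ⟨by simp, fun x => rfl⟩
    | succ n ih =>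
      have hnd : n < d := by omega
      obtain ⟨i1, i2⟩ := ih (by omega)
      obtain ⟨n1, n2⟩ := hlok n hnd (by omega)
      refine ⟨?_, fun x => ?_⟩
      · rw [sum_step hnd hδ, i1, zero_add]
        simp only [i2]
        exact hzero _ n1 n2
      · rw [pre_succ hnd, map_mul, Perm.mul_apply, i2, hc _ n1 n2]
  obtain ⟨a1, a2⟩ := hA k le_rfl
  have hkd : (k : ℕ) < d := by omega
  have hkd' : (k : ℕ) + 1 < d := by omega
  have hB1 : ∑ x, c x * δ (pre d (k + 1)) x = δ (gen (lo k)) s := by
    rw [sum_step hkd hδ, a1, zero_add]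
    simp only [a2]
    have := sum_gen hk hst hδ c
    rw [hcs, hct, sub_zero, mul_one] at this
    exact this
  have hB2 : ∀ x, c (θ (pre d (k + 1)) x) = c (swap s t x) := by
    intro x
    rw [pre_succ hkd, map_mul, Perm.mul_apply, a2]
    change c (θ (gen (lo k)) x) = _
    rw [hk]
  have hC1 : ∑ x, c x * δ (pre d (k + 2)) x = δ (gen (lo k)) s - δ (gen (hi k)) s := by
    rw [sum_step hkd' hδ, hB1]
    simp only [hB2]
    have := sum_gen hk' hst hδ (fun y => c (swap s t y))
    rw [Equiv.swap_apply_left, Equiv.swap_apply_right, hcs, hct] at this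
    change _ + ∑ y, c (swap s t y) * δ (gen (hi k)) y = _
    rw [this]
    ring
  have hC2 : ∀ x, c (θ (pre d (k + 2)) x) = c x := by
    intro x
    rw [pre_succ hkd', map_mul, Perm.mul_apply, hB2]
    change c (swap s t (θ (gen (hi k)) x)) = _
    rw [hk', Equiv.swap_apply_self]
  have hD : ∀ n, (k : ℕ) + 2 ≤ n → n ≤ d →
      (∑ x, c x * δ (pre d n) x = δ (gen (lo k)) s - δ (gen (hi k)) s) ∧
      ∀ x, c (θ (pre d n) x) = c x := by
    intro n hn hnd
    induction n, hn using Nat.le_induction with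
    | base => exact ⟨hC1, hC2⟩
    | succ n hn ih =>
      have hnd' : n < d := by omega
      obtain ⟨i1, i2⟩ := ih (by omega)
      obtain ⟨n1, n2⟩ := hhik n hnd' hn
      refine ⟨?_, fun x => ?_⟩
      · rw [sum_step hnd' hδ, i1]
        simp only [i2]
        rw [hzero _ n1 n2, add_zero]
      · rw [pre_succ hnd', map_mul, Perm.mul_apply, i2, hc _ n1 n2]
  have := (hD d (by omega) le_rfl).1
  rwa [pre_total] at this

/-- The partition of the sheets given by a pair of equal transpositions. -/
theorem exists_cut (h : Planar θ) {k : Fin (d - 1)} {s t : Fin N}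
    (hst : s ≠ t) (hk : θ (gen (lo k)) = swap s t) (hk' : θ (gen (hi k)) = swap s t) :
    ∃ c : Fin N → ℚ, (∀ x, c x = 0 ∨ c x = 1) ∧ c s = 1 ∧ c t = 0 ∧
      (∀ l, l ≠ lo k → l ≠ hi k → ∀ x, c (θ (gen l) x) = c x) ∧
      ∀ i j : Fin N, ∀ δ ∈ Lsp θ, δ (total d) = Pi.single i 1 - Pi.single j 1 →
        ∀ n : ℕ, ∃ u : Fin N → ℚ, (∀ w, δ (artin d (sigma k ^ n) w) = δ w + cob θ u w) ∧
          u j - u i = n * (c i - c j) ^ 2 := by
  have hlift := sigma_liftable hk hk'
  -- the values of the difference on generators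
  have hval : ∀ δ ∈ Lsp θ, ∀ u, (∀ w, δ (artin d (sigma k) w) = δ w + cob θ u w) →
      (u t - u s = δ (gen (lo k)) s - δ (gen (hi k)) s) ∧
      ∀ l, l ≠ lo k → l ≠ hi k → ∀ x, u (θ (gen l) x) = u x := by
    intro δ hδ u hu
    refine ⟨?_, fun l h1 h2 x => ?_⟩
    · have h1 := congrFun (hu (gen (hi k))) s
      rw [artin_sigma, artinAut_hi, Pi.add_apply, cob_apply, hk', Equiv.symm_swap,
        Equiv.swap_apply_left] at h1
      linarith
    · have h3 := congrFun (hu (gen l)) (θ (gen l) x)
      rw [artin_sigma, artinAut_of_ne h1 h2, Pi.add_apply, cob_apply, Equiv.symm_apply_apply] at h3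
      linarith
  -- the reference crossed homomorphism
  obtain ⟨δ₀, hδ₀, ha₀⟩ := exists_Lsp (θ := θ)
    (fun l => if l = lo k then (Pi.single s 1 - Pi.single t 1 : Fin N → ℚ) else 0) (by
      intro l j
      by_cases hl : l = lo k
      · subst hl
        simp only [if_true, Pi.sub_apply]
        rw [single_symm, single_symm, hk, Equiv.swap_apply_left, Equiv.swap_apply_right]
        ring
      · simp [hl])
  obtain ⟨u₀, hu₀⟩ := exists_u h hlift hδ₀
  obtain ⟨hv1, hv2⟩ := hval δ₀ hδ₀ u₀ hu₀
  have hv3 : u₀ t - u₀ s = 1 := by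
    rw [hv1, ha₀, ha₀, if_pos rfl, if_neg (hi_ne_lo k)]
    rw [Pi.sub_apply, Pi.single_eq_same, Pi.single_eq_of_ne hst]
    simp
  let c : Fin N → ℚ := fun x => u₀ t - u₀ x
  have hcs : c s = 1 := hv3
  have hct : c t = 0 := sub_self _
  have hcinv : ∀ l, l ≠ lo k → l ≠ hi k → ∀ x, c (θ (gen l) x) = c x := by
    intro l h1 h2 x
    simp only [c, hv2 l h1 h2 x]
  have hc01 : ∀ x, c x = 0 ∨ c x = 1 := by
    intro x
    have hinv : ∀ l x, (c (θ (gen l) x) = 0 ∨ c (θ (gen l) x) = 1) = (c x = 0 ∨ c x = 1) := by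
      intro l x
      by_cases h1 : θ (gen l) = swap s t
      · rw [h1]
        by_cases e1 : x = s
        · rw [e1, Equiv.swap_apply_left, hcs, hct]
          simp
        · by_cases e2 : x = t
          · rw [e2, Equiv.swap_apply_right, hcs, hct]
            simp
          · rw [Equiv.swap_apply_of_ne_of_ne e1 e2]
      · have n1 : l ≠ lo k := fun e => h1 (e ▸ hk)
        have n2 : l ≠ hi k := fun e => h1 (e ▸ hk')
        rw [hcinv l n1 n2]
    have := h.trans.const (c := fun x => (c x = 0 ∨ c x = 1)) hinv x t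
    exact this.mpr (Or.inl hct)
  refine ⟨c, hc01, hcs, hct, hcinv, ?_⟩
  intro i j δ hδ hδv
  obtain ⟨u, hu⟩ := exists_u h hlift hδ
  obtain ⟨w1, w2⟩ := hval δ hδ u hu
  set f := δ (gen (lo k)) s - δ (gen (hi k)) s with hf
  -- `u + f c` is constant
  have hconst : ∀ x y, u x + f * c x = u y + f * c y := by
    apply h.trans.const (c := fun x => u x + f * c x)
    intro l x
    by_cases h1 : θ (gen l) = swap s t
    · rw [h1]
      by_cases e1 : x = s
      · rw [e1, Equiv.swap_apply_left, hcs, hct]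
        linarith
      · by_cases e2 : x = t
        · rw [e2, Equiv.swap_apply_right, hcs, hct]
          linarith
        · rw [Equiv.swap_apply_of_ne_of_ne e1 e2]
    · have n1 : l ≠ lo k := fun e => h1 (e ▸ hk)
      have n2 : l ≠ hi k := fun e => h1 (e ▸ hk')
      rw [hcinv l n1 n2, w2 l n1 n2]
  have hfc : f = c i - c j := by
    have h1 := sum_total h.swap hst hk hk' hδ hcs hct hcinv
    rw [hδv] at h1
    rw [hf, ← h1]
    simp [mul_sub, Finset.sum_sub_distrib, Pi.single_apply]
  have huij : u j - u i = (c i - c j) ^ 2 := by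
    have := hconst i j
    rw [hfc] at this
    linear_combination -this
  intro n
  refine ⟨(n : ℚ) • u, ?_, ?_⟩
  · intro w
    rw [map_smul, Pi.smul_apply]
    induction n generalizing w with
    | zero =>
      rw [pow_zero, map_one, MulAut.one_apply]
      simp
    | succ n ih =>
      rw [pow_succ, artin_mul_apply, ih, hu, cob_artin hlift]
      push_cast
      rw [add_smul, one_smul]
      abel
  · rw [Pi.smul_apply, Pi.smul_apply, smul_eq_mul, smul_eq_mul, ← mul_sub, huij]

/-! ### The values of `q` at half-twists -/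

/-- The values of `q` at powers of half-twists in the liftable group. -/
theorem q_power (h : Planar θ) {b x : Braid d} (hx : IsHalfTwist x) {n : ℕ} (hb : b = x ^ n)
    (hbl : b ∈ liftable θ) :
    ∃ (c : Fin N → ℚ) (m : ℕ), (∀ x, c x = 0 ∨ c x = 1) ∧
      ∀ i j, q h i j b = m * (c i - c j) ^ 2 := by
  obtain ⟨g, k, rfl⟩ := hx
  have hb' : b = g * sigma k ^ n * g⁻¹ := by
    rw [hb, conj_pow]
  have hn : sigma k ^ n ∈ liftable (act θ g) := by
    rw [liftable_act, ← hb']
    exact hbl
  have hp := h.act g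
  by_cases hne : act θ g (gen (lo k)) = act θ g (gen (hi k))
  · obtain ⟨s, t, hst, hk⟩ := hp.swap (lo k)
    have hk' : act θ g (gen (hi k)) = swap s t := by rw [← hne, hk]
    obtain ⟨c, hc01, -, -, -, hc⟩ := exists_cut hp hst hk hk'
    refine ⟨c, n, hc01, fun i j => ?_⟩
    have hm := pull_mem h.swap g (dl_mem h i j)
    obtain ⟨u, hu, hu'⟩ := hc i j _ hm (by rw [artin_total, dl_total]) n
    rw [← hu']
    apply q_eq
    intro w
    rw [hb']
    exact transport g _ hu w
  · refine ⟨fun _ => 0, 0, fun _ => Or.inl rfl, fun i j => ?_⟩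
    have hm := pull_mem h.swap g (dl_mem h i j)
    have h1 := pow_of_ne hp hne hn hm
    have h2 : q h i j b = (0 : Fin N → ℚ) j - (0 : Fin N → ℚ) i := by
      apply q_eq
      intro w
      rw [hb']
      apply transport g _ _ w
      intro w
      rw [map_zero, Pi.zero_apply, add_zero]
      exact h1 w
    rw [h2]
    simp

/-- The value of `q` at a half-twist with a prescribed pair of equal transpositions. -/
theorem q_half (h : Planar θ) (g : Braid d) {k : Fin (d - 1)} {s t : Fin N} (hst : s ≠ t)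
    (hk : act θ g (gen (lo k)) = swap s t) (hk' : act θ g (gen (hi k)) = swap s t) :
    g * sigma k * g⁻¹ ∈ liftable θ ∧ ∃ c : Fin N → ℚ, (∀ x, c x = 0 ∨ c x = 1) ∧ c s = 1 ∧ c t = 0 ∧
      (∀ l, l ≠ lo k → l ≠ hi k → ∀ x, c (act θ g (gen l) x) = c x) ∧
      ∀ i j, q h i j (g * sigma k * g⁻¹) = (c i - c j) ^ 2 := by
  have hp := h.act g
  refine ⟨liftable_act.1 (sigma_liftable hk hk'), ?_⟩
  obtain ⟨c, hc01, hcs, hct, hcinv, hc⟩ := exists_cut hp hst hk hk'
  refine ⟨c, hc01, hcs, hct, hcinv, fun i j => ?_⟩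
  have hm := pull_mem h.swap g (dl_mem h i j)
  obtain ⟨u, hu, hu'⟩ := hc i j _ hm (by rw [artin_total, dl_total]) 1
  rw [Nat.cast_one, one_mul] at hu'
  rw [← hu']
  apply q_eq
  intro w
  have := transport g _ hu w
  rwa [pow_one] at this

end MPd28408
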