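import Mathlib

/-!
# MP_d28408_gt : definitions

Artin's braid group, its action on the free group of the punctured fibre, half-twists, the full
twist, fibre monodromies, the liftable braid group, and factorizations of the full twist of the kind
that braid monodromies of branch curves give.
-/

namespace MPd28408

/-- The lower of the two strands exchanged by the generator number `i`. -/
def lo {d : ℕ} (i : Fin (d - 1)) : Fin d := ⟨i, by omega⟩

/-- The upper of the two strands exchanged by the generator number `i`. -/
def hi {d : ℕ} (i : Fin (d - 1)) : Fin d := ⟨i + 1, by omega⟩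

/-- The relators of Artin's presentation of the braid group on `d` strands. -/
def braidRels (d : ℕ) : Set (FreeGroup (Fin (d - 1))) :=
  {r | ∃ i j : Fin (d - 1),
    ((i : ℕ) + 1 = j ∧ r = FreeGroup.of i * FreeGroup.of j * FreeGroup.of i *
      (FreeGroup.of j * FreeGroup.of i * FreeGroup.of j)⁻¹) ∨
    ((i : ℕ) + 1 < j ∧ r = FreeGroup.of i * FreeGroup.of j *
      (FreeGroup.of j * FreeGroup.of i)⁻¹)}

/-- Artin's braid group on `d` strands. -/
abbrev Braid (d : ℕ) : Type := PresentedGroup (braidRels d)

/-- The standard generators. -/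
def sigma {d : ℕ} (i : Fin (d - 1)) : Braid d := PresentedGroup.of i

/-- The full twist, `(sigma_1 ... sigma_(d-1)) ^ d`. -/
def fullTwist (d : ℕ) : Braid d := (List.ofFn (sigma (d := d))).prod ^ d

/-- A half-twist is a conjugate of a standard generator. -/
def IsHalfTwist {d : ℕ} (b : Braid d) : Prop := ∃ (g : Braid d) (i : Fin (d - 1)), b = g * sigma i * g⁻¹

/-- The standard generators of the fundamental group of the fibre minus `d` points. -/
abbrev gen {d : ℕ} (k : Fin d) : FreeGroup (Fin d) := FreeGroup.of k

/-- The images of the generators under the generator number `i` of the braid group. -/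
def artinFun {d : ℕ} (i : Fin (d - 1)) (j : Fin d) : FreeGroup (Fin d) :=
  if j = lo i then gen (lo i) * gen (hi i) * (gen (lo i))⁻¹
  else if j = hi i then gen (lo i) else gen j

/-- The images of the generators under the inverse of the generator number `i`. -/
def artinInvFun {d : ℕ} (i : Fin (d - 1)) (j : Fin d) : FreeGroup (Fin d) :=
  if j = lo i then gen (hi i)
  else if j = hi i then (gen (hi i))⁻¹ * gen (lo i) * gen (hi i) else gen j

theorem lo_ne_hi {d : ℕ} (i : Fin (d - 1)) : lo i ≠ hi i := by
  intro h
  have := congrArg Fin.val h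
  simp [lo, hi] at this

theorem hi_ne_lo {d : ℕ} (i : Fin (d - 1)) : hi i ≠ lo i := (lo_ne_hi i).symm

theorem artinFun_lo {d : ℕ} (i : Fin (d - 1)) :
    artinFun i (lo i) = gen (lo i) * gen (hi i) * (gen (lo i))⁻¹ := if_pos rfl

theorem artinFun_hi {d : ℕ} (i : Fin (d - 1)) : artinFun i (hi i) = gen (lo i) := by
  rw [artinFun, if_neg (hi_ne_lo i), if_pos rfl]

theorem artinFun_of_ne {d : ℕ} {i : Fin (d - 1)} {j : Fin d} (h1 : j ≠ lo i) (h2 : j ≠ hi i) :
    artinFun i j = gen j := by
  rw [artinFun, if_neg h1, if_neg h2]

theorem artinInvFun_lo {d : ℕ} (i : Fin (d - 1)) : artinInvFun i (lo i) = gen (hi i) := if_pos rfl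

theorem artinInvFun_hi {d : ℕ} (i : Fin (d - 1)) :
    artinInvFun i (hi i) = (gen (hi i))⁻¹ * gen (lo i) * gen (hi i) := by
  rw [artinInvFun, if_neg (hi_ne_lo i), if_pos rfl]

theorem artinInvFun_of_ne {d : ℕ} {i : Fin (d - 1)} {j : Fin d} (h1 : j ≠ lo i) (h2 : j ≠ hi i) :
    artinInvFun i j = gen j := by
  rw [artinInvFun, if_neg h1, if_neg h2]

/-- The automorphism of the free group induced by the generator number `i`. -/
def artinAut {d : ℕ} (i : Fin (d - 1)) : MulAut (FreeGroup (Fin d)) :=
  MonoidHom.toMulEquiv (FreeGroup.lift (artinFun i)) (FreeGroup.lift (artinInvFun i))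
    (by
      apply FreeGroup.ext_hom
      intro j
      rw [MonoidHom.comp_apply, FreeGroup.lift_apply_of, MonoidHom.id_apply]
      by_cases h1 : j = lo i
      · subst h1
        rw [artinFun_lo, map_mul, map_mul, map_inv, FreeGroup.lift_apply_of,
          FreeGroup.lift_apply_of, artinInvFun_lo, artinInvFun_hi]
        group
      · by_cases h2 : j = hi i
        · subst h2
          rw [artinFun_hi, FreeGroup.lift_apply_of, artinInvFun_lo]
        · rw [artinFun_of_ne h1 h2, FreeGroup.lift_apply_of, artinInvFun_of_ne h1 h2])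
    (by
      apply FreeGroup.ext_hom
      intro j
      rw [MonoidHom.comp_apply, FreeGroup.lift_apply_of, MonoidHom.id_apply]
      by_cases h1 : j = lo i
      · subst h1
        rw [artinInvFun_lo, FreeGroup.lift_apply_of, artinFun_hi]
      · by_cases h2 : j = hi i
        · subst h2
          rw [artinInvFun_hi, map_mul, map_mul, map_inv, FreeGroup.lift_apply_of,
            FreeGroup.lift_apply_of, artinFun_lo, artinFun_hi]
          group
        · rw [artinInvFun_of_ne h1 h2, FreeGroup.lift_apply_of, artinFun_of_ne h1 h2])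

theorem artinAut_gen {d : ℕ} (i : Fin (d - 1)) (j : Fin d) : artinAut i (gen j) = artinFun i j :=
  FreeGroup.lift_apply_of ..

theorem artinAut_lo {d : ℕ} (i : Fin (d - 1)) :
    artinAut i (gen (lo i)) = gen (lo i) * gen (hi i) * (gen (lo i))⁻¹ := by
  rw [artinAut_gen, artinFun_lo]

theorem artinAut_hi {d : ℕ} (i : Fin (d - 1)) : artinAut i (gen (hi i)) = gen (lo i) := by
  rw [artinAut_gen, artinFun_hi]

theorem artinAut_of_ne {d : ℕ} {i : Fin (d - 1)} {j : Fin d} (h1 : j ≠ lo i) (h2 : j ≠ hi i) :
    artinAut i (gen j) = gen j := by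
  rw [artinAut_gen, artinFun_of_ne h1 h2]

theorem artinAut_ext {d : ℕ} {f g : MulAut (FreeGroup (Fin d))} (h : ∀ j, f (gen j) = g (gen j)) :
    f = g := by
  apply MulEquiv.toMonoidHom_injective
  exact FreeGroup.ext_hom _ _ h

theorem artinAut_rels {d : ℕ} : ∀ r ∈ braidRels d, FreeGroup.lift (artinAut (d := d)) r = 1 := by
  rintro r ⟨i, j, ⟨hij, rfl⟩ | ⟨hij, rfl⟩⟩
  · rw [map_mul, map_inv, mul_inv_eq_one]
    simp only [map_mul, FreeGroup.lift_apply_of]
    have hhl : hi i = lo j := Fin.ext hij
    have h13 : lo i ≠ hi j := by
      intro h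
      have := congrArg Fin.val h
      simp only [lo, hi] at this
      omega
    have e1 : artinAut i (gen (lo i)) = gen (lo i) * gen (lo j) * (gen (lo i))⁻¹ := by
      rw [artinAut_lo, hhl]
    have e2 : artinAut i (gen (lo j)) = gen (lo i) := by rw [← hhl, artinAut_hi]
    have e3 : artinAut i (gen (hi j)) = gen (hi j) :=
      artinAut_of_ne h13.symm (by rw [hhl]; exact hi_ne_lo j)
    have e4 : artinAut j (gen (lo i)) = gen (lo i) :=
      artinAut_of_ne (by rw [← hhl]; exact lo_ne_hi i) h13
    have e5 : artinAut j (gen (lo j)) = gen (lo j) * gen (hi j) * (gen (lo j))⁻¹ := artinAut_lo j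
    have e6 : artinAut j (gen (hi j)) = gen (lo j) := artinAut_hi j
    apply artinAut_ext
    intro k
    by_cases h1 : k = lo i
    · subst h1
      simp only [MulAut.mul_apply, map_mul, map_inv, e1, e2, e3, e4, e5, e6]
      group
    · by_cases h2 : k = lo j
      · subst h2
        simp only [MulAut.mul_apply, map_mul, map_inv, e1, e2, e3, e4, e5, e6]
      · by_cases h3 : k = hi j
        · subst h3
          simp only [MulAut.mul_apply, e2, e3, e4, e6]
        · have e7 : artinAut i (gen k) = gen k := artinAut_of_ne h1 (by rw [hhl]; exact h2)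
          have e8 : artinAut j (gen k) = gen k := artinAut_of_ne h2 h3
          simp only [MulAut.mul_apply, e7, e8]
  · rw [map_mul, map_inv, mul_inv_eq_one]
    simp only [map_mul, FreeGroup.lift_apply_of]
    have n1 : lo i ≠ lo j := fun h => by
      have := congrArg Fin.val h
      simp only [lo] at this
      omega
    have n2 : lo i ≠ hi j := fun h => by
      have := congrArg Fin.val h
      simp only [lo, hi] at this
      omega
    have n3 : hi i ≠ lo j := fun h => by
      have := congrArg Fin.val h
      simp only [lo, hi] at this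
      omega
    have n4 : hi i ≠ hi j := fun h => by
      have := congrArg Fin.val h
      simp only [hi] at this
      omega
    have e1 := artinAut_lo i
    have e2 := artinAut_hi i
    have e3 : artinAut i (gen (lo j)) = gen (lo j) := artinAut_of_ne n1.symm n3.symm
    have e4 : artinAut i (gen (hi j)) = gen (hi j) := artinAut_of_ne n2.symm n4.symm
    have e5 : artinAut j (gen (lo i)) = gen (lo i) := artinAut_of_ne n1 n2
    have e6 : artinAut j (gen (hi i)) = gen (hi i) := artinAut_of_ne n3 n4
    have e7 := artinAut_lo j
    have e8 := artinAut_hi j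
    apply artinAut_ext
    intro k
    by_cases h1 : k = lo i
    · subst h1
      simp only [MulAut.mul_apply, map_mul, map_inv, e1, e5, e6]
    · by_cases h2 : k = hi i
      · subst h2
        simp only [MulAut.mul_apply, e2, e5, e6]
      · by_cases h3 : k = lo j
        · subst h3
          simp only [MulAut.mul_apply, map_mul, map_inv, e3, e4, e7]
        · by_cases h4 : k = hi j
          · subst h4
            simp only [MulAut.mul_apply, e3, e4, e8]
          · have e9 : artinAut i (gen k) = gen k := artinAut_of_ne h1 h2
            have e10 : artinAut j (gen k) = gen k := artinAut_of_ne h3 h4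
            simp only [MulAut.mul_apply, e9, e10]

/-- Artin's action of the braid group on the free group: the generator number `i` sends
`x_i` to `x_i x_(i+1) x_i⁻¹` and `x_(i+1)` to `x_i`. -/
def artin (d : ℕ) : Braid d →* MulAut (FreeGroup (Fin d)) := PresentedGroup.toGroup artinAut_rels

theorem artin_sigma {d : ℕ} (i : Fin (d - 1)) : artin d (sigma i) = artinAut i :=
  PresentedGroup.toGroup.of artinAut_rels

/-- The liftable braid group of `θ`: the braids `b` with `θ ∘ b_* = θ`. -/
def liftable {d : ℕ} {G : Type*} [Group G] (θ : FreeGroup (Fin d) →* G) : Subgroup (Braid d) where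
  carrier := {b | ∀ w, θ (artin d b w) = θ w}
  one_mem' := fun w => by rw [map_one, MulAut.one_apply]
  mul_mem' := fun {a b} ha hb w => by
    rw [map_mul, MulAut.mul_apply, ha, hb]
  inv_mem' := fun {a} ha w => by
    rw [← ha (artin d a⁻¹ w), ← MulAut.mul_apply, ← map_mul, mul_inv_cancel, map_one,
      MulAut.one_apply]

theorem mem_liftable {d : ℕ} {G : Type*} [Group G] {θ : FreeGroup (Fin d) →* G} {b : Braid d} :
    b ∈ liftable θ ↔ ∀ w, θ (artin d b w) = θ w := Iff.rfl

/-- The product of the standard generators of the free group. -/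
def total (d : ℕ) : FreeGroup (Fin d) := (List.ofFn (gen (d := d))).prod

/-- `θ` is a fibre monodromy of degree `N`: it sends the standard generators to transpositions, is
onto the symmetric group, and kills the product of the standard generators. -/
def IsFibreMonodromy {N d : ℕ} (θ : FreeGroup (Fin d) →* Equiv.Perm (Fin N)) : Prop :=
  (∀ k, (θ (gen k)).IsSwap) ∧ Function.Surjective θ ∧ θ (total d) = 1

/-- `ρ` is a factorization of the full twist into half-twists, squares of half-twists and cubes of
half-twists, all of them in the liftable braid group of `θ`. -/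
def IsFactorization {N d : ℕ} (θ : FreeGroup (Fin d) →* Equiv.Perm (Fin N))
    (ρ : List (Braid d)) : Prop :=
  ρ.prod = fullTwist d ∧ ∀ b ∈ ρ, b ∈ liftable θ ∧
    ∃ h, IsHalfTwist h ∧ (b = h ∨ b = h ^ 2 ∨ b = h ^ 3)

end MPd28408
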