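import Pool.Agent.Lib.MP_d28408_gt.Clebsch

/-!
# MP_d28408_gt : planar fibre monodromies, no factorization of the full twist generates
-/

open Equiv

namespace MPd28408

variable {N d : ℕ}

theorem list_cut {β : Type*} (f12 f13 f14 f23 f24 f34 : β → ℚ) (l : List β)
    (h : ∀ b ∈ l, ∃ s1 s2 s3 s4 p1 p2 p3 : ℕ,
      f12 b = s1 + s2 + p2 + p3 ∧ f13 b = s1 + s3 + p1 + p3 ∧ f14 b = s1 + s4 + p1 + p2 ∧
      f23 b = s2 + s3 + p1 + p2 ∧ f24 b = s2 + s4 + p1 + p3 ∧ f34 b = s3 + s4 + p2 + p3) :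
    ∃ s1 s2 s3 s4 p1 p2 p3 : ℕ,
      ((l.map f12).sum = s1 + s2 + p2 + p3 ∧ (l.map f13).sum = s1 + s3 + p1 + p3 ∧
      (l.map f14).sum = s1 + s4 + p1 + p2 ∧ (l.map f23).sum = s2 + s3 + p1 + p2 ∧
      (l.map f24).sum = s2 + s4 + p1 + p3 ∧ (l.map f34).sum = s3 + s4 + p2 + p3) ∧
      (s1 + s2 + s3 + s4 = 0 → ∀ b ∈ l, f12 b = f34 b) ∧
      (p1 + p2 + p3 = 0 → ∀ b ∈ l, f12 b + f34 b = f13 b + f24 b) := by
  induction l with
  | nil => exact ⟨0, 0, 0, 0, 0, 0, 0, by simp, by simp, by simp⟩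
  | cons x l ih =>
    obtain ⟨s1, s2, s3, s4, p1, p2, p3, ⟨e1, e2, e3, e4, e5, e6⟩, hs, hp⟩ :=
      ih fun b hb => h b (by simp [hb])
    obtain ⟨t1, t2, t3, t4, r1, r2, r3, g1, g2, g3, g4, g5, g6⟩ := h x (by simp)
    refine ⟨t1 + s1, t2 + s2, t3 + s3, t4 + s4, r1 + p1, r2 + p2, r3 + p3, ?_, ?_, ?_⟩
    · simp only [List.map_cons, List.sum_cons, e1, e2, e3, e4, e5, e6, g1, g2, g3, g4, g5, g6]
      push_cast
      refine ⟨?_, ?_, ?_, ?_, ?_, ?_⟩ <;> ring
    · intro h0 b hb
      rw [List.mem_cons] at hb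
      rcases hb with rfl | hb
      · have a1 : t1 = 0 := by omega
        have a2 : t2 = 0 := by omega
        have a3 : t3 = 0 := by omega
        have a4 : t4 = 0 := by omega
        rw [g1, g6, a1, a2, a3, a4]
      · exact hs (by omega) b hb
    · intro h0 b hb
      rw [List.mem_cons] at hb
      rcases hb with rfl | hb
      · have a1 : r1 = 0 := by omega
        have a2 : r2 = 0 := by omega
        have a3 : r3 = 0 := by omega
        rw [g1, g6, g2, g5, a1, a2, a3]
        push_cast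
        ring
      · exact hp (by omega) b hb

/-- The shape of the values of `q` at a power of a half-twist. -/
theorem cut_shape (c1 c2 c3 c4 : ℚ) (m : ℕ) (h1 : c1 = 0 ∨ c1 = 1) (h2 : c2 = 0 ∨ c2 = 1)
    (h3 : c3 = 0 ∨ c3 = 1) (h4 : c4 = 0 ∨ c4 = 1) :
    ∃ s1 s2 s3 s4 p1 p2 p3 : ℕ,
      (m : ℚ) * (c1 - c2) ^ 2 = s1 + s2 + p2 + p3 ∧ (m : ℚ) * (c1 - c3) ^ 2 = s1 + s3 + p1 + p3 ∧
      (m : ℚ) * (c1 - c4) ^ 2 = s1 + s4 + p1 + p2 ∧ (m : ℚ) * (c2 - c3) ^ 2 = s2 + s3 + p1 + p2 ∧
      (m : ℚ) * (c2 - c4) ^ 2 = s2 + s4 + p1 + p3 ∧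
      (m : ℚ) * (c3 - c4) ^ 2 = s3 + s4 + p2 + p3 := by
  rcases h1 with rfl | rfl <;> rcases h2 with rfl | rfl <;> rcases h3 with rfl | rfl <;>
    rcases h4 with rfl | rfl
  · exact ⟨0, 0, 0, 0, 0, 0, 0, by norm_num, by norm_num, by norm_num, by norm_num, by norm_num,
      by norm_num⟩
  · exact ⟨0, 0, 0, m, 0, 0, 0, by norm_num, by norm_num, by norm_num, by norm_num, by norm_num,
      by norm_num⟩
  · exact ⟨0, 0, m, 0, 0, 0, 0, by norm_num, by norm_num, by norm_num, by norm_num, by norm_num,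
      by norm_num⟩
  · exact ⟨0, 0, 0, 0, m, 0, 0, by norm_num, by norm_num, by norm_num, by norm_num, by norm_num,
      by norm_num⟩
  · exact ⟨0, m, 0, 0, 0, 0, 0, by norm_num, by norm_num, by norm_num, by norm_num, by norm_num,
      by norm_num⟩
  · exact ⟨0, 0, 0, 0, 0, m, 0, by norm_num, by norm_num, by norm_num, by norm_num, by norm_num,
      by norm_num⟩
  · exact ⟨0, 0, 0, 0, 0, 0, m, by norm_num, by norm_num, by norm_num, by norm_num, by norm_num,
      by norm_num⟩
  · exact ⟨m, 0, 0, 0, 0, 0, 0, by norm_num, by norm_num, by norm_num, by norm_num, by norm_num,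
      by norm_num⟩
  · exact ⟨m, 0, 0, 0, 0, 0, 0, by norm_num, by norm_num, by norm_num, by norm_num, by norm_num,
      by norm_num⟩
  · exact ⟨0, 0, 0, 0, 0, 0, m, by norm_num, by norm_num, by norm_num, by norm_num, by norm_num,
      by norm_num⟩
  · exact ⟨0, 0, 0, 0, 0, m, 0, by norm_num, by norm_num, by norm_num, by norm_num, by norm_num,
      by norm_num⟩
  · exact ⟨0, m, 0, 0, 0, 0, 0, by norm_num, by norm_num, by norm_num, by norm_num, by norm_num,
      by norm_num⟩
  · exact ⟨0, 0, 0, 0, m, 0, 0, by norm_num, by norm_num, by norm_num, by norm_num, by norm_num,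
      by norm_num⟩
  · exact ⟨0, 0, m, 0, 0, 0, 0, by norm_num, by norm_num, by norm_num, by norm_num, by norm_num,
      by norm_num⟩
  · exact ⟨0, 0, 0, m, 0, 0, 0, by norm_num, by norm_num, by norm_num, by norm_num, by norm_num,
      by norm_num⟩
  · exact ⟨0, 0, 0, 0, 0, 0, 0, by norm_num, by norm_num, by norm_num, by norm_num, by norm_num,
      by norm_num⟩

variable {θ : FreeGroup (Fin d) →* Perm (Fin N)}

theorem q_list (h : Planar θ) (i j : Fin N) (ρ : List (Braid d)) (hρ : ∀ b ∈ ρ, b ∈ liftable θ) :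
    ρ.prod ∈ liftable θ ∧ (ρ.map (q h i j)).sum = q h i j ρ.prod := by
  induction ρ with
  | nil => exact ⟨one_mem _, by rw [List.prod_nil, q_one]; rfl⟩
  | cons b ρ ih =>
    obtain ⟨h1, h2⟩ := ih fun x hx => hρ x (by simp [hx])
    have hb := hρ b (by simp)
    rw [List.prod_cons, List.map_cons, List.sum_cons, h2, q_mul h i j hb h1]
    exact ⟨mul_mem hb h1, rfl⟩

/-- For four sheets, the closure of the factors satisfies one of two linear relations. -/
theorem dichotomy (h : Planar θ) {i1 i2 i3 i4 : Fin N} (h12 : i1 ≠ i2) (h13 : i1 ≠ i3)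
    (h14 : i1 ≠ i4) (h23 : i2 ≠ i3) (h24 : i2 ≠ i4) (h34 : i3 ≠ i4) {ρ : List (Braid d)}
    (hρ : ∀ b ∈ ρ, b ∈ liftable θ ∧ ∃ x n, IsHalfTwist x ∧ b = x ^ n)
    (hprod : ρ.prod = fullTwist d) :
    (∀ b ∈ Subgroup.closure {b | b ∈ ρ}, q h i1 i2 b = q h i3 i4 b) ∨
    (∀ b ∈ Subgroup.closure {b | b ∈ ρ},
      q h i1 i2 b + q h i3 i4 b = q h i1 i3 b + q h i2 i4 b) := by
  have hl : ∀ b ∈ ρ, b ∈ liftable θ := fun b hb => (hρ b hb).1
  obtain ⟨s1, s2, s3, s4, p1, p2, p3, ⟨e1, e2, e3, e4, e5, e6⟩, hs, hp⟩ :=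
    list_cut (q h i1 i2) (q h i1 i3) (q h i1 i4) (q h i2 i3) (q h i2 i4) (q h i3 i4) ρ (by
      intro b hb
      obtain ⟨hbl, x, n, hx, hbx⟩ := hρ b hb
      obtain ⟨c, m, hc, hq⟩ := q_power h hx hbx hbl
      obtain ⟨s1, s2, s3, s4, p1, p2, p3, e1, e2, e3, e4, e5, e6⟩ :=
        cut_shape (c i1) (c i2) (c i3) (c i4) m (hc _) (hc _) (hc _) (hc _)
      exact ⟨s1, s2, s3, s4, p1, p2, p3, by rw [hq, e1], by rw [hq, e2], by rw [hq, e3],
        by rw [hq, e4], by rw [hq, e5], by rw [hq, e6]⟩)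
  rw [(q_list h _ _ ρ hl).2, hprod, q_fullTwist h h12] at e1
  rw [(q_list h _ _ ρ hl).2, hprod, q_fullTwist h h13] at e2
  rw [(q_list h _ _ ρ hl).2, hprod, q_fullTwist h h14] at e3
  rw [(q_list h _ _ ρ hl).2, hprod, q_fullTwist h h23] at e4
  rw [(q_list h _ _ ρ hl).2, hprod, q_fullTwist h h24] at e5
  rw [(q_list h _ _ ρ hl).2, hprod, q_fullTwist h h34] at e6
  have e1' : 2 = s1 + s2 + p2 + p3 := by exact_mod_cast e1
  have e2' : 2 = s1 + s3 + p1 + p3 := by exact_mod_cast e2
  have e3' : 2 = s1 + s4 + p1 + p2 := by exact_mod_cast e3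
  have e4' : 2 = s2 + s3 + p1 + p2 := by exact_mod_cast e4
  have e5' : 2 = s2 + s4 + p1 + p3 := by exact_mod_cast e5
  have e6' : 2 = s3 + s4 + p2 + p3 := by exact_mod_cast e6
  have hcase : s1 + s2 + s3 + s4 = 0 ∨ p1 + p2 + p3 = 0 := by omega
  have hcl : ∀ b ∈ Subgroup.closure {b | b ∈ ρ}, b ∈ liftable θ := by
    intro b hb
    exact (Subgroup.closure_le _).2 (fun x hx => hl x hx) hb
  rcases hcase with h0 | h0
  · left
    intro b hb
    induction hb using Subgroup.closure_induction with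
    | mem x hx => exact hs h0 x hx
    | one => rw [q_one, q_one]
    | mul x y hx' hy' hx hy =>
      rw [q_mul h _ _ (hcl x hx') (hcl y hy'), q_mul h _ _ (hcl x hx') (hcl y hy'), hx, hy]
    | inv x hx' hx => rw [q_inv h _ _ (hcl x hx'), q_inv h _ _ (hcl x hx'), hx]
  · right
    intro b hb
    induction hb using Subgroup.closure_induction with
    | mem x hx => exact hp h0 x hx
    | one => simp only [q_one]
    | mul x y hx' hy' hx hy =>
      simp only [q_mul h _ _ (hcl x hx') (hcl y hy')]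
      linarith
    | inv x hx' hx =>
      simp only [q_inv h _ _ (hcl x hx')]
      linarith

theorem good_vals (h : Planar θ) : Good Finset.univ (vals θ) where
  sw := by
    intro x hx
    rw [vals, List.mem_ofFn] at hx
    obtain ⟨k, rfl⟩ := hx
    obtain ⟨s, t, hst, hk⟩ := h.swap k
    exact ⟨s, Finset.mem_univ _, t, Finset.mem_univ _, hst, hk⟩
  trans := by
    intro c hc i _ j _
    apply h.trans.const
    intro k x
    exact hc _ (by rw [vals, List.mem_ofFn]; exact ⟨k, rfl⟩) x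
  prod := by
    rw [← h.total, total, map_list_prod, List.map_ofFn]
    rfl

theorem vals_getElem (θ' : FreeGroup (Fin d) →* Perm (Fin N)) {l : List (Perm (Fin N))}
    (h : vals θ' = l) (i : ℕ) (hi : i < d) (hi' : i < l.length) :
    θ' (gen ⟨i, hi⟩) = l[i] := by
  subst h
  simp only [vals, List.getElem_ofFn]

theorem planar_exists (h : Planar θ) (hN : 4 ≤ N) :
    ∃ (i1 i2 i3 i4 : Fin N) (x y : Braid d), i1 ≠ i2 ∧ i1 ≠ i3 ∧ i1 ≠ i4 ∧ i2 ≠ i3 ∧ i2 ≠ i4 ∧
      i3 ≠ i4 ∧ x ∈ liftable θ ∧ y ∈ liftable θ ∧ q h i1 i2 x ≠ q h i3 i4 x ∧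
      q h i1 i2 y + q h i3 i4 y ≠ q h i1 i3 y + q h i2 i4 y := by
  have hc := h.count
  have hg := good_vals h
  have hcard : (Finset.univ : Finset (Fin N)).card = N := by simp
  have hlen : (vals θ).length = d := by rw [vals, List.length_ofFn]
  let p : Fin N := ⟨0, by omega⟩
  obtain ⟨a, b, -, hap, hz, hgb⟩ := planar_normal hg (Finset.mem_univ p) (by omega) (by omega)
  have hcard1 : (Finset.univ.erase p).card = N - 1 := by
    rw [Finset.card_erase_of_mem (Finset.mem_univ p), hcard]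
  have hlenb : b.length + 2 = d := by
    have := Hz.length hz
    rw [hlen] at this
    simpa using this
  have ha : a ∈ Finset.univ.erase p := Finset.mem_erase.2 ⟨hap, Finset.mem_univ a⟩
  obtain ⟨a', b', ha', haa', hz', hgb'⟩ := planar_normal hgb ha (by omega) (by omega)
  have ha'p : a' ≠ p := (Finset.mem_erase.1 ha').1
  have hcard2 : ((Finset.univ.erase p).erase a).card = N - 2 := by
    rw [Finset.card_erase_of_mem ha, hcard1]
    omega
  -- two more sheets
  obtain ⟨u, hu, v, hv, huv⟩ := Finset.one_lt_card.1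
    (by omega : 1 < ((Finset.univ.erase p).erase a).card)
  have hua := (Finset.mem_erase.1 hu).1
  have hup := (Finset.mem_erase.1 (Finset.mem_erase.1 hu).2).1
  have hva := (Finset.mem_erase.1 hv).1
  have hvp := (Finset.mem_erase.1 (Finset.mem_erase.1 hv).2).1
  -- first element
  obtain ⟨g, hgv⟩ := realize hz
  have k0 : 0 < d - 1 := by omega
  have e0 : act θ g (gen (lo ⟨0, k0⟩)) = swap p a :=
    vals_getElem _ hgv 0 (by omega) (by simp)
  have e1 : act θ g (gen (hi ⟨0, k0⟩)) = swap p a :=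
    vals_getElem _ hgv 1 (by omega) (by simp)
  obtain ⟨hx1, c, -, hcp, hca, hcinv, hq⟩ := q_half h g hap.symm e0 e1
  have hconst : ∀ i ∈ Finset.univ.erase p, c i = 0 := by
    intro i hi
    have := hgb.trans (fun i => c i = 0) (by
      intro x hx j
      obtain ⟨m, hm, rfl⟩ := List.getElem_of_mem hx
      have h1 := vals_getElem _ hgv (m + 2) (by omega) (by simp; omega)
      have h2 : (swap p a :: swap p a :: b)[m + 2]'(by simp; omega) = b[m] := by simp
      rw [h2] at h1
      have h3 := hcinv ⟨m + 2, by omega⟩ (by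
        intro h
        have := congrArg Fin.val h
        simp [lo] at this) (by
        intro h
        have := congrArg Fin.val h
        simp [MPd28408.hi] at this) j
      rw [h1] at h3
      rw [h3]) i hi a ha
    exact this.mpr hca
  -- second element
  have hz2 : Hz (vals θ) (swap p a :: swap p a :: swap a a' :: swap a a' :: b') :=
    hz.trans ((hz'.cons _).cons _)
  obtain ⟨g', hgv'⟩ := realize hz2
  have hlenb' : b'.length + 4 = d := by
    have := Hz.length hz2
    rw [hlen] at this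
    simpa using this
  have k2 : 2 < d - 1 := by omega
  have e2 : act θ g' (gen (lo ⟨2, k2⟩)) = swap a a' :=
    vals_getElem _ hgv' 2 (by omega) (by simp)
  have e3 : act θ g' (gen (hi ⟨2, k2⟩)) = swap a a' :=
    vals_getElem _ hgv' 3 (by omega) (by simp)
  obtain ⟨hy1, c', -, hca2, hca'2, hcinv', hq'⟩ := q_half h g' haa'.symm e2 e3
  have hcp' : c' p = 1 := by
    have h1 := vals_getElem _ hgv' 0 (by omega) (by simp)
    have h3 := hcinv' ⟨0, by omega⟩ (by
        intro h
        have := congrArg Fin.val h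
        simp [lo] at this) (by
        intro h
        have := congrArg Fin.val h
        simp [hi] at this) a
    rw [h1] at h3
    have h4 : (swap p a :: swap p a :: swap a a' :: swap a a' :: b')[0]'(by simp) = swap p a := rfl
    rw [h4, Equiv.swap_apply_right] at h3
    rw [h3, hca2]
  have hconst' : ∀ i ∈ (Finset.univ.erase p).erase a, c' i = 0 := by
    intro i hi
    have ha'm : a' ∈ (Finset.univ.erase p).erase a := Finset.mem_erase.2 ⟨haa', ha'⟩
    have := hgb'.trans (fun i => c' i = 0) (by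
      intro x hx j
      obtain ⟨m, hm, rfl⟩ := List.getElem_of_mem hx
      have h1 := vals_getElem _ hgv' (m + 4) (by omega) (by simp; omega)
      have h2 : (swap p a :: swap p a :: swap a a' :: swap a a' :: b')[m + 4]'(by simp; omega) =
        b'[m] := by simp
      rw [h2] at h1
      have h3 := hcinv' ⟨m + 4, by omega⟩ (by
        intro h
        have := congrArg Fin.val h
        simp [lo] at this) (by
        intro h
        have := congrArg Fin.val h
        simp [MPd28408.hi] at this) j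
      rw [h1] at h3
      rw [h3]) i hi a' ha'm
    exact this.mpr hca'2
  refine ⟨p, a, u, v, _, _, hap.symm, hup.symm, hvp.symm, hua.symm, hva.symm, huv, hx1, hy1, ?_, ?_⟩
  · rw [hq, hq, hcp, hca, hconst u (Finset.mem_erase.2 ⟨hup, Finset.mem_univ u⟩),
      hconst v (Finset.mem_erase.2 ⟨hvp, Finset.mem_univ v⟩)]
    norm_num
  · rw [hq', hq', hq', hq', hcp', hca2, hconst' u hu, hconst' v hv]
    norm_num

/-- Planar case: no factorization of the full twist into powers of half-twists of the liftable braid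
group generates it. -/
theorem planar_main (h : Planar θ) (hN : 4 ≤ N) {ρ : List (Braid d)}
    (hρ : ∀ b ∈ ρ, b ∈ liftable θ ∧ ∃ x n, IsHalfTwist x ∧ b = x ^ n)
    (hprod : ρ.prod = fullTwist d) : Subgroup.closure {b | b ∈ ρ} ≠ liftable θ := by
  intro hcl
  obtain ⟨i1, i2, i3, i4, x, y, h12, h13, h14, h23, h24, h34, hx, hy, hqx, hqy⟩ :=
    planar_exists h hN
  rcases dichotomy h h12 h13 h14 h23 h24 h34 hρ hprod with hd | hd
  · exact hqx (hd x (by rw [hcl]; exact hx))
  · exact hqy (hd y (by rw [hcl]; exact hy))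

end MPd28408
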